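import Mathlib

/-!
# Statements for the project on de Rham-Betti classes of K3 surfaces (prefix DK)
-/

namespace Pool.Agent.W516.K3

open Module TensorProduct

section Basic

variable {F T : Type} [Field F] [AddCommGroup T] [Module F T]

/-- The endomorphism `t ↦ b v t • u - b u t • v`. -/
def wdg (b : T →ₗ[F] T →ₗ[F] F) (u v : T) : Module.End F T :=
  (b v).smulRight u - (b u).smulRight v

/-- `x` kills the multilinear form `φ`. -/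
def KillsM {κ : Type} [Fintype κ] [DecidableEq κ] (x : Module.End F T)
    (φ : MultilinearMap F (fun _ : κ => T) F) : Prop :=
  ∀ v : κ → T, ∑ j, φ (Function.update v j (x (v j))) = 0

/-- `e₁, f₁, e₂, f₂` span an orthogonal sum of two hyperbolic planes. -/
structure Hyp2 (b : T →ₗ[F] T →ₗ[F] F) (e₁ f₁ e₂ f₂ : T) : Prop where
  e11 : b e₁ e₁ = 0
  e22 : b e₂ e₂ = 0
  e12 : b e₁ e₂ = 0
  f11 : b f₁ f₁ = 0
  f22 : b f₂ f₂ = 0
  f12 : b f₁ f₂ = 0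
  ef12 : b e₁ f₂ = 0
  ef21 : b e₂ f₁ = 0
  ef11 : b e₁ f₁ = 1
  ef22 : b e₂ f₂ = 1

end Basic

section Real

variable {T : Type} [AddCommGroup T] [Module ℝ T]

/-- Diagonalizable over the real numbers. -/
def IsHyp (y : Module.End ℝ T) : Prop := ⨆ μ : ℝ, Module.End.eigenspace y μ = ⊤

/-- All complex eigenvalues are purely imaginary. -/
def NoRe (z : Module.End ℝ T) : Prop :=
  ∀ a c : ℝ, a ≠ 0 → ∀ v : T, z (z v) - (2 * a) • z v + (a ^ 2 + c ^ 2) • v = 0 → v = 0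

/-- The Lie algebras of interest. -/
structure Good (b : T →ₗ[ℝ] T →ₗ[ℝ] ℝ) (g : Submodule ℝ (Module.End ℝ T)) : Prop where
  symm : ∀ u v, b u v = b v u
  nondeg : ∀ u, (∀ v, b u v = 0) → u = 0
  witt : ∀ W : Submodule ℝ T, (∀ u ∈ W, ∀ v ∈ W, b u v = 0) → finrank ℝ W ≤ 2
  skew : ∀ x ∈ g, ∀ u v, b (x u) v + b u (x v) = 0
  bracket : ∀ x ∈ g, ∀ y ∈ g, x * y - y * x ∈ g
  irr : ∀ U : Submodule ℝ T, (∀ x ∈ g, ∀ u ∈ U, x u ∈ U) → U = ⊥ ∨ U = ⊤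
  comm : ∀ P : Module.End ℝ T, (∀ x ∈ g, x * P = P * x) → ∃ c : ℝ, P = c • 1
  trace : ∀ x ∈ g, (∀ y ∈ g, LinearMap.trace ℝ T (x * y) = 0) → x = 0
  hyp : ∀ y z : Module.End ℝ T, y + z ∈ g → y * z = z * y → IsHyp y → NoRe z → y ∈ g

end Real

/-! ### Real endomorphisms -/

/-- Every real endomorphism is the sum of its hyperbolic part and of an endomorphism with purely
imaginary eigenvalues. -/
def S_SPLIT : Prop :=
  ∀ (T : Type) [AddCommGroup T] [Module ℝ T] [FiniteDimensional ℝ T] (x : Module.End ℝ T),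
    ∃ y z : Module.End ℝ T, x = y + z ∧ y * z = z * y ∧ IsHyp y ∧ NoRe z

/-- The hyperbolic part kills the forms killed by `x`. -/
def S_KILL : Prop :=
  ∀ (T : Type) [AddCommGroup T] [Module ℝ T] [FiniteDimensional ℝ T]
    (κ : Type) [Fintype κ] [DecidableEq κ] (φ : MultilinearMap ℝ (fun _ : κ => T) ℝ)
    (y z : Module.End ℝ T), y * z = z * y → IsHyp y → NoRe z → KillsM (y + z) φ → KillsM y φ

/-- The normal form of a hyperbolic element. -/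
def S_NORM : Prop :=
  ∀ (T : Type) [AddCommGroup T] [Module ℝ T] [FiniteDimensional ℝ T]
    (b : T →ₗ[ℝ] T →ₗ[ℝ] ℝ), (∀ u v, b u v = b v u) → (∀ u, (∀ v, b u v = 0) → u = 0) →
    (∀ W : Submodule ℝ T, (∀ u ∈ W, ∀ v ∈ W, b u v = 0) → finrank ℝ W ≤ 2) →
    ∀ y : Module.End ℝ T, (∀ u v, b (y u) v + b u (y v) = 0) → IsHyp y → y ≠ 0 →
    (∃ (e f : T) (a : ℝ), 0 < a ∧ b e e = 0 ∧ b f f = 0 ∧ b e f = 1 ∧ y = a • wdg b e f) ∨
    (∃ (e₁ f₁ e₂ f₂ : T) (a₁ a₂ : ℝ), 0 < a₂ ∧ a₂ ≤ a₁ ∧ Hyp2 b e₁ f₁ e₂ f₂ ∧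
      y = a₁ • wdg b e₁ f₁ + a₂ • wdg b e₂ f₂)

/-- Facts on endomorphisms with purely imaginary eigenvalues. -/
def S_NT : Prop :=
  (∀ (V : Type) [AddCommGroup V] [Module ℝ V] [FiniteDimensional ℝ V] (x : Module.End ℝ V),
    NoRe x → LinearMap.trace ℝ V (x * x) ≤ 0 ∧
      (LinearMap.trace ℝ V (x * x) = 0 → IsNilpotent x)) ∧
  (∀ (T : Type) [AddCommGroup T] [Module ℝ T] [FiniteDimensional ℝ T] (x : Module.End ℝ T)
    (X : Module.End ℝ (T →ₗ[ℝ] T →ₗ[ℝ] ℝ)), (∀ g u v, X g u v = -g (x u) v - g u (x v)) →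
    NoRe x → NoRe (T := T →ₗ[ℝ] T →ₗ[ℝ] ℝ) X)

/-- A Perron-Frobenius argument on the cone of the positive semidefinite forms. -/
def S_PF : Prop :=
  ∀ (T : Type) [AddCommGroup T] [Module ℝ T] [FiniteDimensional ℝ T]
    (b : T →ₗ[ℝ] T →ₗ[ℝ] ℝ), (∀ u v, b u v = b v u) →
    ∀ (ι : Type) [Fintype ι] (x : ι → Module.End ℝ T)
    (Φ : (T →ₗ[ℝ] T →ₗ[ℝ] ℝ) →ₗ[ℝ] (T →ₗ[ℝ] T →ₗ[ℝ] ℝ)),
    (∀ g u v, Φ g u v = ∑ i, g (x i u) (x i v)) →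
    ∀ (s : ℝ) (κ : (T →ₗ[ℝ] T →ₗ[ℝ] ℝ) →ₗ[ℝ] ℝ), Φ b = s • b → κ b = 1 →
    (∀ g, κ (Φ g) = s * κ g) →
    (∀ (g : T →ₗ[ℝ] T →ₗ[ℝ] ℝ) (θ : ℝ), s ≤ θ → Φ g = θ • g → ∃ c : ℝ, g = c • b) →
    (∀ v, 0 ≤ b v v) ∨ (∀ v, b v v ≤ 0)

/-- If all elements have purely imaginary eigenvalues then the hypotheses of `S_PF` hold. -/
def S_CAS : Prop :=
  ∀ (T : Type) [AddCommGroup T] [Module ℝ T] [FiniteDimensional ℝ T]
    (b : T →ₗ[ℝ] T →ₗ[ℝ] ℝ) (g : Submodule ℝ (Module.End ℝ T)), Good b g → b ≠ 0 →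
    (∀ x ∈ g, NoRe x) → (∃ x ∈ g, x ≠ 0) →
    ∃ (ι : Type) (_ : Fintype ι) (x : ι → Module.End ℝ T)
      (Φ : (T →ₗ[ℝ] T →ₗ[ℝ] ℝ) →ₗ[ℝ] (T →ₗ[ℝ] T →ₗ[ℝ] ℝ)) (s : ℝ)
      (κ : (T →ₗ[ℝ] T →ₗ[ℝ] ℝ) →ₗ[ℝ] ℝ),
      (∀ g u v, Φ g u v = ∑ i, g (x i u) (x i v)) ∧ Φ b = s • b ∧ κ b = 1 ∧
      (∀ g, κ (Φ g) = s * κ g) ∧
      (∀ (g : T →ₗ[ℝ] T →ₗ[ℝ] ℝ) (θ : ℝ), s ≤ θ → Φ g = θ • g → ∃ c : ℝ, g = c • b)

/-- There is an element which has an eigenvalue with a nonzero real part. -/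
def S_HYP : Prop :=
  ∀ (T : Type) [AddCommGroup T] [Module ℝ T] [FiniteDimensional ℝ T]
    (b : T →ₗ[ℝ] T →ₗ[ℝ] ℝ) (g : Submodule ℝ (Module.End ℝ T)), Good b g →
    (∃ v, 0 < b v v) → (∃ v, b v v < 0) → ∃ x ∈ g, ¬ NoRe x

/-! ### The three cases -/

/-- The case of an element of rank two. -/
def S_C10 : Prop :=
  ∀ (T : Type) [AddCommGroup T] [Module ℝ T] [FiniteDimensional ℝ T]
    (b : T →ₗ[ℝ] T →ₗ[ℝ] ℝ) (g : Submodule ℝ (Module.End ℝ T)), Good b g →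
    5 ≤ finrank ℝ T → ∀ e f : T, b e e = 0 → b f f = 0 → b e f = 1 → wdg b e f ∈ g →
    ∀ u v, wdg b u v ∈ g

/-- The case of an element of rank four with different eigenvalues. -/
def S_CPQ : Prop :=
  ∀ (T : Type) [AddCommGroup T] [Module ℝ T] [FiniteDimensional ℝ T]
    (b : T →ₗ[ℝ] T →ₗ[ℝ] ℝ) (g : Submodule ℝ (Module.End ℝ T)), Good b g →
    6 ≤ finrank ℝ T → ∀ (e₁ f₁ e₂ f₂ : T) (a₁ a₂ : ℝ), Hyp2 b e₁ f₁ e₂ f₂ → 0 < a₂ → a₂ < a₁ →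
    a₁ • wdg b e₁ f₁ + a₂ • wdg b e₂ f₂ ∈ g → wdg b e₁ f₁ ∈ g

/-- A linear space of real matrices of size two without matrices with different real eigenvalues
commutes with a matrix which is not a scalar. -/
def S_DISC : Prop :=
  ∀ S : Submodule ℝ (Matrix (Fin 2) (Fin 2) ℝ),
    (∀ A ∈ S, (A 0 0 - A 1 1) ^ 2 + 4 * (A 0 1 * A 1 0) ≤ 0) →
    ∃ j : Matrix (Fin 2) (Fin 2) ℝ, (∀ A ∈ S, A * j = j * A) ∧ ∀ c : ℝ, j ≠ c • 1

/-- The extension of an endomorphism of the eigenspace of `h` with eigenvalue one that commutes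
with the elements of degree zero. -/
def S_JJ : Prop :=
  ∀ (T : Type) [AddCommGroup T] [Module ℝ T] [FiniteDimensional ℝ T]
    (b : T →ₗ[ℝ] T →ₗ[ℝ] ℝ) (g : Submodule ℝ (Module.End ℝ T)), Good b g →
    ∀ h ∈ g, h * h * h = h → (∃ t, t ≠ 0 ∧ h t = 0) → (∀ t, h t = 0 → b t t = 0 → t = 0) →
    ∀ j : Module.End ℝ T, (∀ v, h v = v → h (j v) = j v) →
    (∀ x ∈ g, x * h = h * x → ∀ v, h v = v → x (j v) = j (x v)) →
    ∃ J : Module.End ℝ T, (∀ x ∈ g, x * J = J * x) ∧ ∀ v, h v = v → J v = j v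

/-- The case of an element of rank four with equal eigenvalues. -/
def S_C11 : Prop :=
  ∀ (T : Type) [AddCommGroup T] [Module ℝ T] [FiniteDimensional ℝ T]
    (b : T →ₗ[ℝ] T →ₗ[ℝ] ℝ) (g : Submodule ℝ (Module.End ℝ T)), Good b g →
    5 ≤ finrank ℝ T → ∀ (e₁ f₁ e₂ f₂ : T), Hyp2 b e₁ f₁ e₂ f₂ →
    wdg b e₁ f₁ + wdg b e₂ f₂ ∈ g →
    ∃ e f : T, b e e = 0 ∧ b f f = 0 ∧ b e f = 1 ∧ wdg b e f ∈ g

/-- Skew endomorphisms are sums of the endomorphisms `wdg b u v`. -/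
def S_SPAN : Prop :=
  ∀ (F T : Type) [Field F] [CharZero F] [AddCommGroup T] [Module F T] [FiniteDimensional F T]
    (b : T →ₗ[F] T →ₗ[F] F), (∀ u v, b u v = b v u) → (∀ u, (∀ v, b u v = 0) → u = 0) →
    ∀ x : Module.End F T, (∀ u v, b (x u) v + b u (x v) = 0) →
    x ∈ Submodule.span F {y | ∃ u v, y = wdg b u v}

/-- The main result on real Lie algebras. -/
def S_REAL : Prop :=
  ∀ (T : Type) [AddCommGroup T] [Module ℝ T] [FiniteDimensional ℝ T]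
    (b : T →ₗ[ℝ] T →ₗ[ℝ] ℝ) (g : Submodule ℝ (Module.End ℝ T)), Good b g →
    6 ≤ finrank ℝ T → (∃ v, 0 < b v v) → (∃ v, b v v < 0) →
    ∀ x : Module.End ℝ T, (∀ u v, b (x u) v + b u (x v) = 0) → x ∈ g

/-! ### Clifford algebras -/

/-- The irreducibility which follows from the Clifford algebra. -/
def S_IRR : Prop :=
  ∀ (F T H : Type) [Field F] [CharZero F] [AddCommGroup T] [Module F T] [FiniteDimensional F T]
    [AddCommGroup H] [Module F H] [FiniteDimensional F H] [Nontrivial H]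
    (b : T →ₗ[F] T →ₗ[F] F) (γ : T →ₗ[F] Module.End F H)
    (S : Set (Module.End F H × Module.End F T)),
    (∀ u v, b u v = b v u) → (∀ u, (∀ v, b u v = 0) → u = 0) → 3 ≤ finrank F T →
    (∀ u v, γ u * γ v + γ v * γ u = (2 * b u v) • (1 : Module.End F H)) →
    (∀ p ∈ S, ∀ t, p.1 * γ t - γ t * p.1 = γ (p.2 t)) →
    (∀ p ∈ S, ∀ u v, b (p.2 u) v + b u (p.2 v) = 0) →
    (∀ u v, γ u * γ v ∈ Algebra.adjoin F {Z | ∃ p ∈ S, p.1 = Z}) →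
    ∀ U : Submodule F T, (∀ p ∈ S, ∀ u ∈ U, p.2 u ∈ U) → U = ⊥ ∨ U = ⊤

/-- The same after an extension of the field. -/
def S_IRRL : Prop :=
  ∀ (k L T H : Type) [Field k] [CharZero k] [Field L] [Algebra k L]
    [AddCommGroup T] [Module k T] [FiniteDimensional k T]
    [AddCommGroup H] [Module k H] [FiniteDimensional k H] [Nontrivial H]
    (b : T →ₗ[k] T →ₗ[k] k) (γ : T →ₗ[k] Module.End k H)
    (S : Set (Module.End k H × Module.End k T)),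
    (∀ u v, b u v = b v u) → (∀ u, (∀ v, b u v = 0) → u = 0) → 3 ≤ finrank k T →
    (∀ u v, γ u * γ v + γ v * γ u = (2 * b u v) • (1 : Module.End k H)) →
    (∀ p ∈ S, ∀ t, p.1 * γ t - γ t * p.1 = γ (p.2 t)) →
    (∀ p ∈ S, ∀ u v, b (p.2 u) v + b u (p.2 v) = 0) →
    (∀ u v, γ u * γ v ∈ Algebra.adjoin k {Z | ∃ p ∈ S, p.1 = Z}) →
    ∀ U : Submodule L (L ⊗[k] T), (∀ p ∈ S, ∀ u ∈ U, p.2.baseChange L u ∈ U) → U = ⊥ ∨ U = ⊤

/-- From the complex numbers to the real numbers. -/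
def S_DESC : Prop :=
  ∀ (k T : Type) [Field k] [Algebra k ℝ] [Algebra k ℂ] [IsScalarTower k ℝ ℂ]
    [AddCommGroup T] [Module k T] [FiniteDimensional k T] (S : Set (Module.End k T)),
    (∀ U : Submodule ℂ (ℂ ⊗[k] T), (∀ x ∈ S, ∀ u ∈ U, x.baseChange ℂ u ∈ U) →
      U = ⊥ ∨ U = ⊤) →
    (∀ U : Submodule ℝ (ℝ ⊗[k] T), (∀ x ∈ S, ∀ u ∈ U, x.baseChange ℝ u ∈ U) →
      U = ⊥ ∨ U = ⊤) ∧
    (∀ P : Module.End ℝ (ℝ ⊗[k] T), (∀ x ∈ S, x.baseChange ℝ * P = P * x.baseChange ℝ) →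
      ∃ c : ℝ, P = c • 1)

/-! ### Invariants -/

/-- The product of the values of `b` on the pairs of a partition of the variables into pairs
given by an equivalence. -/
def PairProd {F T : Type} [Field F] [AddCommGroup T] [Module F T] (b : T →ₗ[F] T →ₗ[F] F)
    {κ : Type} [Fintype κ] (φ : MultilinearMap F (fun _ : κ => T) F) : Prop :=
  ∃ (m : ℕ) (e : Fin m × Fin 2 ≃ κ), ∀ v, φ v = ∏ l, b (v (e (l, 0))) (v (e (l, 1)))

/-- The first fundamental theorem for the special orthogonal Lie algebra in low degree. -/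
def S_FFT : Prop :=
  ∀ (F T : Type) [Field F] [CharZero F] [AddCommGroup T] [Module F T] [FiniteDimensional F T]
    (b : T →ₗ[F] T →ₗ[F] F), (∀ u v, b u v = b v u) → (∀ u, (∀ v, b u v = 0) → u = 0) →
    ∀ (κ : Type) [Fintype κ] [DecidableEq κ] (φ : MultilinearMap F (fun _ : κ => T) F),
    Fintype.card κ < finrank F T →
    (∀ x : Module.End F T, (∀ u v, b (x u) v + b u (x v) = 0) → KillsM x φ) →
    φ ∈ Submodule.span F {ψ | PairProd b ψ}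

end Pool.Agent.W516.K3
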