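import Mathlib
import Pool.Agent.W516.DRMain
import Pool.Agent.W516.RankTwo

/-!
# De Rham-Betti forms of weight zero and actions
-/

set_option linter.unusedSectionVars false

namespace Pool.Agent.W516.K3

open Module TensorProduct Pool.Agent.H204R3.SP Pool.Agent.H204R3.GP Pool.Agent.W516.DR
  Pool.Agent.W516.KC

noncomputable section

/-- A multilinear form on a de Rham-Betti object of weight zero is a *de Rham-Betti class* if it is
a linear combination with coefficients in `K` of the products of the periods. -/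
def IsDRBForm (K : Type*) {k L T ι κ : Type*} [Field k] [Field K] [Field L] [Algebra k L]
    [Algebra K L] [AddCommGroup T] [Module k T] [Fintype ι] [Fintype κ] [DecidableEq κ]
    (ξ : ι → (T →ₗ[k] L)) (φ : MultilinearMap k (fun _ : κ => T) k) : Prop :=
  ∃ a : (κ → ι) → K, ∀ v : κ → T,
    algebraMap k L (φ v) = ∑ J, algebraMap K L (a J) * ∏ l, ξ (J l) (v l)

/-- The action `γ` of `T` (of weight zero) on `H` respects the de Rham-Betti structures: the periods
of `γ t h` are linear combinations with coefficients in `K` of the products of a period of `t` and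
a period of `h`. -/
def IsDRBAction (K : Type*) {k L T H ι ν : Type*} [Field k] [Field K] [Field L] [Algebra k L]
    [Algebra K L] [AddCommGroup T] [Module k T] [AddCommGroup H] [Module k H] [Fintype ι]
    [Fintype ν] (ξ : ι → (T →ₗ[k] L)) (θ : ν → (H →ₗ[k] L)) (γ : T →ₗ[k] Module.End k H) : Prop :=
  ∃ a : ν → ι → ν → K, ∀ i t h,
    θ i (γ t h) = ∑ j, ∑ l, algebraMap K L (a i j l) * (ξ j t * θ l h)

variable {k K L : Type*} [Field k] [Field K] [Field L] [CharZero k] [CharZero K] [CharZero L]
  [IsAlgClosed K] [Algebra k K] [Algebra k L] [Algebra K L] [IsScalarTower k K L]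
  {T : Type*} [AddCommGroup T] [Module k T] [FiniteDimensional k T]
  {H : Type*} [AddCommGroup H] [Module k H] [FiniteDimensional k H]
  {ι ν : Type*} [Fintype ι] [DecidableEq ι] [Fintype ν] [DecidableEq ν]
  (ξ : Basis ι L (T →ₗ[k] L)) (θ : Basis ν L (H →ₗ[k] L))

/-- The components of the logarithmic derivative. -/
def Y0 (D : Derivation K L L) (lam : L →ₗ[k] k) : Module.End k T := cmpE lam (XX ξ D)

theorem Y0_eq (D : Derivation K L L) (lam : L →ₗ[k] k) : X0 ξ (1 : L) D lam = Y0 ξ D lam := by
  ext w
  rw [X0_apply, Y0, cmpE_apply, Derivation.map_one_eq_zero, zero_div, map_zero, zero_smul,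
    sub_zero]

theorem Y0_apply (D : Derivation K L L) (lam : L →ₗ[k] k) (t : T) :
    Y0 ξ D lam t = cmp lam (XX ξ D ((1 : L) ⊗ₜ[k] t)) := rfl

/-! ### Forms of weight zero -/

variable {σ : Type*} [Fintype σ] [DecidableEq σ] (b : Basis σ k T)

/-- The derivative of the coefficients of a rational form. -/
theorem der_coef0 {κ : Type*} [Fintype κ] [DecidableEq κ]
    (φ : MultilinearMap k (fun _ : κ => T) k) (D : Derivation K L L) (J : κ → ι) :
    D (bcm (Ω := L) b φ (fun l => ee ξ (J l))) =
      -∑ j, bcm (Ω := L) b φ (Function.update (fun l => ee ξ (J l)) j (XX ξ D (ee ξ (J j)))) := by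
  rw [der_bcm, ← Finset.sum_neg_distrib]
  refine Finset.sum_congr rfl fun j _ => ?_
  have h2 : XX ξ D (ee ξ (J j)) = (-1 : L) • dW D (ee ξ (J j)) := by
    rw [XX_ee]
    module
  rw [h2, MultilinearMap.map_update_smul, smul_eq_mul, neg_one_mul, neg_neg]

include b in
/-- A rational form is a de Rham-Betti class if and only if it is killed by the components of the
logarithmic derivatives. -/
theorem drb0_iff {κ : Type*} [Fintype κ] [DecidableEq κ]
    (φ : MultilinearMap k (fun _ : κ => T) k) :
    IsDRBForm K (ξ : ι → (T →ₗ[k] L)) φ ↔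
      ∀ (D : Derivation K L L) (lam : L →ₗ[k] k), Kills (Y0 ξ D lam) φ := by
  constructor
  · rintro ⟨a, ha⟩ D
    change ∀ lam, Kills (cmpE lam (XX ξ D)) φ
    rw [← kills_bcm_iff b]
    refine kills_of_basis (ee ξ) _ _ fun J => ?_
    have h0 : ∀ v : κ → T, (1 : L) * algebraMap k L (φ v) =
        ∑ J, algebraMap K L (a J) * ∏ l, ξ (J l) (v l) := fun v => by rw [one_mul]; exact ha v
    have h1 := coef_unique ξ b φ 1 (fun J => algebraMap K L (a J)) h0 J
    rw [one_mul] at h1
    have h2 := der_coef0 ξ b φ D J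
    rw [h1, Derivation.map_algebraMap] at h2
    exact neg_eq_zero.1 h2.symm
  · intro h
    have h1 : ∀ J : κ → ι, ∃ a : K, algebraMap K L a =
        bcm (Ω := L) b φ (fun l => ee ξ (J l)) := by
      intro J
      apply mem_K
      intro D
      have h2 := (kills_bcm_iff b φ (XX ξ D)).2 (h D) (fun l => ee ξ (J l))
      rw [der_coef0 ξ b φ D J, h2, neg_zero]
    choose a ha using h1
    refine ⟨a, fun v => ?_⟩
    rw [coef_expand ξ b φ v]
    refine Finset.sum_congr rfl fun J _ => ?_
    rw [ha]

/-! ### Actions -/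

theorem cmp_baseChange' (lam : L →ₗ[k] k) (P : T →ₗ[k] H) (z : L ⊗[k] T) :
    cmp lam (P.baseChange L z) = P (cmp lam z) := by
  induction z with
  | zero => simp only [map_zero]
  | add z z' h h' => simp only [map_add, h, h']
  | tmul a w => rw [LinearMap.baseChange_tmul, cmp_tmul, cmp_tmul, map_smul]

variable (γ : T →ₗ[k] Module.End k H)

/-- The logarithmic derivatives are compatible with the actions. -/
theorem comm_gamma (hγ : IsDRBAction K (ξ : ι → (T →ₗ[k] L)) (θ : ν → (H →ₗ[k] L)) γ)
    (D : Derivation K L L) (lam : L →ₗ[k] k) (t : T) :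
    Y0 θ D lam * γ t - γ t * Y0 θ D lam = γ (Y0 ξ D lam t) := by
  obtain ⟨a, ha⟩ := hγ
  -- the base change
  have h1 : ∀ (h : H) (z : L ⊗[k] T) (i : ν), etaL θ i ((γ.flip h).baseChange L z) =
      ∑ j, ∑ l, algebraMap K L (a i j l) * (etaL ξ j z * θ l h) := by
    intro h z i
    induction z with
    | zero => simp only [map_zero, zero_mul, mul_zero, Finset.sum_const_zero]
    | add z z' h1 h2 => simp only [map_add, h1, h2, add_mul, mul_add, Finset.sum_add_distrib]
    | tmul c t =>
      rw [LinearMap.baseChange_tmul, etaL_tmul, LinearMap.flip_apply, ha, Finset.mul_sum]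
      refine Finset.sum_congr rfl fun j _ => ?_
      rw [Finset.mul_sum]
      refine Finset.sum_congr rfl fun l _ => ?_
      rw [etaL_tmul]
      ring
  have h2 : ∀ (t : T) (w : L ⊗[k] H) (i : ν), etaL θ i ((γ t).baseChange L w) =
      ∑ j, ∑ l, algebraMap K L (a i j l) * (ξ j t * etaL θ l w) := by
    intro t w i
    induction w with
    | zero => simp only [map_zero, mul_zero, Finset.sum_const_zero]
    | add z z' h1 h2 => simp only [map_add, h1, h2, mul_add, Finset.sum_add_distrib]
    | tmul c h =>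
      rw [LinearMap.baseChange_tmul, etaL_tmul, ha, Finset.mul_sum]
      refine Finset.sum_congr rfl fun j _ => ?_
      rw [Finset.mul_sum]
      refine Finset.sum_congr rfl fun l _ => ?_
      rw [etaL_tmul]
      ring
  have h3 : ∀ h : H, XX θ D ((1 : L) ⊗ₜ[k] (γ t h)) =
      (γ.flip h).baseChange L (XX ξ D ((1 : L) ⊗ₜ[k] t)) +
        (γ t).baseChange L (XX θ D ((1 : L) ⊗ₜ[k] h)) := by
    intro h
    apply ext_etaL θ
    intro i
    rw [map_add, h1, h2, etaL_XX_one, ha, map_sum, ← Finset.sum_add_distrib]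
    refine Finset.sum_congr rfl fun j _ => ?_
    rw [map_sum, ← Finset.sum_add_distrib]
    refine Finset.sum_congr rfl fun l _ => ?_
    rw [etaL_XX_one, etaL_XX_one, Derivation.leibniz, Derivation.map_algebraMap, smul_zero,
      add_zero, Derivation.leibniz, smul_eq_mul, smul_eq_mul, smul_eq_mul]
    ring
  ext h
  rw [LinearMap.sub_apply, Module.End.mul_apply, Module.End.mul_apply, Y0_apply, Y0_apply, h3,
    map_add, cmp_baseChange', cmp_baseChange', LinearMap.flip_apply, add_sub_cancel_right]
  rfl

/-! ### The even Clifford algebra -/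

/-- The span of the components. -/
def zz (K : Type*) {k L H ν : Type*} [Field k] [Field K] [Field L] [CharZero K] [Algebra k K]
    [Algebra k L] [Algebra K L] [IsScalarTower k K L] [AddCommGroup H] [Module k H]
    [FiniteDimensional k H] [Fintype ν] [DecidableEq ν] (θ : Basis ν L (H →ₗ[k] L)) :
    Submodule k (Module.End k H) :=
  Submodule.span k {Z | ∃ (D : Derivation K L L) (lam : L →ₗ[k] k), Z = Y0 θ D lam}

theorem semi_zz (hss : DeRhamBettiSemisimple K (θ : ν → (H →ₗ[k] L))) : Semi (zz K θ) := by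
  intro U hU
  have h0 : ∀ (D : Derivation K L L) (lam : L →ₗ[k] k), ∀ u ∈ U,
      X0 θ (1 : L) D lam u ∈ U := by
    intro D lam u hu
    rw [Y0_eq]
    exact hU _ (Submodule.subset_span ⟨D, lam, rfl⟩) u hu
  have h1 := sub_of_stable θ (τ := (1 : L)) U h0
  obtain ⟨U', hU', hc⟩ := hss U h1
  refine ⟨U', fun X hX u hu => ?_, hc⟩
  induction hX using Submodule.span_induction with
  | mem X hX =>
    obtain ⟨D, lam, rfl⟩ := hX
    rw [← Y0_eq]
    exact stable_of_sub θ (τ := (1 : L)) U' hU' D lam hu
  | zero => exact U'.zero_mem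
  | add a b _ _ ha hb => exact U'.add_mem ha hb
  | smul c a _ ha => exact U'.smul_mem c ha

/-- The even Clifford algebra is generated by the components. -/
theorem even_mem (hss : DeRhamBettiSemisimple K (θ : ν → (H →ₗ[k] L)))
    (hend : ∀ P : Module.End k H, IsDeRhamBettiEnd K (θ : ν → (H →ₗ[k] L)) P →
      ∀ u v, P * (γ u * γ v) = (γ u * γ v) * P) (u v : T) :
    γ u * γ v ∈ Algebra.adjoin k
      {Z | ∃ (D : Derivation K L L) (lam : L →ₗ[k] k), Z = Y0 θ D lam} := by
  have h1 : CommComm (zz K θ) (γ u * γ v) := by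
    intro P hP
    have h0 : ∀ (D : Derivation K L L) (lam : L →ₗ[k] k),
        X0 θ (1 : L) D lam * P = P * X0 θ (1 : L) D lam := by
      intro D lam
      rw [Y0_eq]
      exact hP _ (Submodule.subset_span ⟨D, lam, rfl⟩)
    exact (hend P (end_of_comm θ (τ := (1 : L)) P h0) u v).symm
  have h2 := double_comm (zz K θ) (semi_zz θ hss) h1
  have h3 : Algebra.adjoin k ((zz K θ : Submodule k (Module.End k H)) : Set (Module.End k H)) ≤
      Algebra.adjoin k {Z | ∃ (D : Derivation K L L) (lam : L →ₗ[k] k), Z = Y0 θ D lam} := by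
    rw [Algebra.adjoin_le_iff]
    intro X hX
    change X ∈ Submodule.span k _ at hX
    exact Algebra.span_le_adjoin k _ hX
  exact h3 h2

end

end Pool.Agent.W516.K3
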