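import Mathlib
import Pool.Agent.W516.K3.Link
import Pool.Agent.W516.K3.Defs
import Pool.Agent.W516.DRCoef

/-!
# The Lie algebra of the de Rham-Betti forms on the transcendental part
-/

set_option linter.unusedSectionVars false

namespace Pool.Agent.W516.K3

open Module TensorProduct Pool.Agent.H204R3.SP Pool.Agent.H204R3.GP Pool.Agent.W516.DR
  Pool.Agent.W516.KC

noncomputable section

/-- The extension of a bilinear form. -/
abbrev bx (Ω : Type) {k T : Type} [Field k] [Field Ω] [Algebra k Ω] [AddCommGroup T] [Module k T]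
    (b : T →ₗ[k] T →ₗ[k] k) : Ω ⊗[k] T →ₗ[Ω] Ω ⊗[k] T →ₗ[Ω] Ω :=
  LinearMap.BilinForm.baseChange Ω b

/-- The signature is `(2, n - 2)`. -/
def SignatureTwo {V : Type} [AddCommGroup V] [Module ℝ V] (b : V →ₗ[ℝ] V →ₗ[ℝ] ℝ) : Prop :=
  ∃ P N : Submodule ℝ V, IsCompl P N ∧ finrank ℝ P = 2 ∧ (∀ v ∈ P, v ≠ 0 → 0 < b v v) ∧
    ∀ v ∈ N, v ≠ 0 → b v v < 0

theorem witt_of_signature {V : Type} [AddCommGroup V] [Module ℝ V] [FiniteDimensional ℝ V]
    (b : V →ₗ[ℝ] V →ₗ[ℝ] ℝ) (hs : SignatureTwo b) (W : Submodule ℝ V)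
    (hW : ∀ u ∈ W, ∀ v ∈ W, b u v = 0) : finrank ℝ W ≤ 2 := by
  obtain ⟨P, N, hc, hP, -, hN⟩ := hs
  have h1 : Disjoint W N := by
    rw [Submodule.disjoint_def]
    intro v hv hv'
    by_contra h
    have h2 := hN v hv' h
    rw [hW v hv v hv] at h2
    exact lt_irrefl _ h2
  have h2 := Submodule.finrank_add_finrank_le_of_disjoint h1
  have h3 := Submodule.finrank_add_eq_of_isCompl hc
  omega

theorem indef_of_signature {V : Type} [AddCommGroup V] [Module ℝ V] [FiniteDimensional ℝ V]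
    (b : V →ₗ[ℝ] V →ₗ[ℝ] ℝ) (hs : SignatureTwo b) (hn : 3 ≤ finrank ℝ V) :
    (∃ v, 0 < b v v) ∧ ∃ v, b v v < 0 := by
  obtain ⟨P, N, hc, hP, hpos, hneg⟩ := hs
  have h3 := Submodule.finrank_add_eq_of_isCompl hc
  constructor
  · have h4 : P ≠ ⊥ := by
      rintro rfl
      rw [finrank_bot] at hP
      omega
    obtain ⟨v, hv, h0⟩ := P.ne_bot_iff.1 h4
    exact ⟨v, hpos v hv h0⟩
  · have h4 : N ≠ ⊥ := by
      rintro rfl
      rw [finrank_bot] at h3
      omega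
    obtain ⟨v, hv, h0⟩ := N.ne_bot_iff.1 h4
    exact ⟨v, hneg v hv h0⟩

variable {k K : Type} [Field k] [Field K] [CharZero k] [CharZero K] [IsAlgClosed K] [Algebra k K]
  [Algebra k ℂ] [Algebra K ℂ] [IsScalarTower k K ℂ] [Algebra k ℝ] [IsScalarTower k ℝ ℂ]
  {T : Type} [AddCommGroup T] [Module k T] [FiniteDimensional k T]
  {H : Type} [AddCommGroup H] [Module k H] [FiniteDimensional k H] [Nontrivial H]
  {ι ν : Type} [Fintype ι] [DecidableEq ι] [Fintype ν] [DecidableEq ν]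
  (ξ : Basis ι ℂ (T →ₗ[k] ℂ)) (θ : Basis ν ℂ (H →ₗ[k] ℂ))
  (b : T →ₗ[k] T →ₗ[k] k) (γ : T →ₗ[k] Module.End k H)

theorem bx_one (Ω : Type) [Field Ω] [Algebra k Ω] (u v : T) :
    bx Ω b ((1 : Ω) ⊗ₜ[k] u) ((1 : Ω) ⊗ₜ[k] v) = algebraMap k Ω (b u v) := by
  rw [LinearMap.BilinForm.baseChange_tmul, mul_one, Algebra.algebraMap_eq_smul_one]

theorem bcm_one2 {Ω : Type} [Field Ω] [CharZero Ω] [Algebra k Ω] {σ : Type} [Fintype σ] [DecidableEq σ]
    (bs : Basis σ k T) (v : Fin 1 × Fin 2 → Ω ⊗[k] T) :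
    bcm (Ω := Ω) bs (one2 b) v = one2 (bx Ω b) v := by
  have h : bcm (Ω := Ω) bs (one2 b) = one2 (bx Ω b) := by
    refine Basis.ext_multilinear (fun _ => bs.baseChange Ω) fun I => ?_
    rw [bcm_basis, one2_apply, one2_apply, Basis.baseChange_apply, Basis.baseChange_apply, bx_one]
  rw [h]

/-- The real endomorphisms that kill all de Rham-Betti forms. -/
def gR : Submodule ℝ (Module.End ℝ (ℝ ⊗[k] T)) where
  carrier := {x | ∀ (κ : Type) [Fintype κ] [DecidableEq κ]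
    (φ : MultilinearMap k (fun _ : κ => T) k), IsDRBForm K (ξ : ι → (T →ₗ[k] ℂ)) φ →
    Kills x (bcm (Ω := ℝ) (Module.finBasis k T) φ)}
  zero_mem' := by
    intro κ _ _ φ _ v
    refine Finset.sum_eq_zero fun j _ => ?_
    rw [LinearMap.zero_apply]
    exact (bcm (Ω := ℝ) (Module.finBasis k T) φ).map_coord_zero j (Function.update_self _ _ _)
  add_mem' := by
    intro X Y hX hY κ _ _ φ hφ v
    have h3 := congrArg₂ (fun x y : ℝ => x + y) (hX κ φ hφ v) (hY κ φ hφ v)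
    simp only [add_zero] at h3
    rw [← h3, ← Finset.sum_add_distrib]
    refine Finset.sum_congr rfl fun j _ => ?_
    rw [LinearMap.add_apply, MultilinearMap.map_update_add]
  smul_mem' := by
    intro c X hX κ _ _ φ hφ v
    rw [← mul_zero c, ← hX κ φ hφ v, Finset.mul_sum]
    refine Finset.sum_congr rfl fun j _ => ?_
    rw [LinearMap.smul_apply, MultilinearMap.map_update_smul, smul_eq_mul]

variable (hsym : ∀ u v, b u v = b v u) (hnd : ∀ u, (∀ v, b u v = 0) → u = 0)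
  (hcl : ∀ u v, γ u * γ v + γ v * γ u = (2 * b u v) • (1 : Module.End k H))
  (hγ : IsDRBAction K (ξ : ι → (T →ₗ[k] ℂ)) (θ : ν → (H →ₗ[k] ℂ)) γ)
  (hss : DeRhamBettiSemisimple K (θ : ν → (H →ₗ[k] ℂ)))
  (hend : ∀ P : Module.End k H, IsDeRhamBettiEnd K (θ : ν → (H →ₗ[k] ℂ)) P →
    ∀ u v, P * (γ u * γ v) = (γ u * γ v) * P)

include hcl hγ in
/-- The components of the logarithmic derivative are skew. -/
theorem skew_Y0 (D : Derivation K ℂ ℂ) (lam : ℂ →ₗ[k] k) (u v : T) :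
    b (Y0 ξ D lam u) v + b u (Y0 ξ D lam v) = 0 := by
  have h1 := fun t => comm_gamma ξ θ γ hγ D lam t
  set Z := Y0 θ D lam
  set x := Y0 ξ D lam
  have h2 : Z * (γ u * γ v + γ v * γ u) - (γ u * γ v + γ v * γ u) * Z =
      (γ (x u) * γ v + γ v * γ (x u)) + (γ u * γ (x v) + γ (x v) * γ u) := by
    rw [← h1, ← h1]
    noncomm_ring
  rw [hcl, hcl, hcl, mul_smul_comm, smul_mul_assoc, mul_one, one_mul, sub_self, ← add_smul] at h2
  have h3 : (2 * b (x u) v + 2 * b u (x v)) = 0 := by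
    obtain ⟨h, hh⟩ := exists_ne (0 : H)
    have h4 := congrArg (fun P : Module.End k H => P h) h2
    simp only [LinearMap.zero_apply, LinearMap.smul_apply, Module.End.one_apply] at h4
    exact (smul_eq_zero.1 h4.symm).resolve_right hh
  have h4 : (2 : k) * (b (x u) v + b u (x v)) = 0 := by rw [mul_add, h3]
  exact (mul_eq_zero.1 h4).resolve_left two_ne_zero

include hcl hγ in
/-- The quadratic form is a de Rham-Betti class. -/
theorem drb_b : IsDRBForm K (ξ : ι → (T →ₗ[k] ℂ)) (one2 b) := by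
  rw [drb0_iff ξ (Module.finBasis k T)]
  intro D lam
  rw [kills_one2]
  exact skew_Y0 ξ θ b γ hcl hγ D lam

theorem Y0_mem (D : Derivation K ℂ ℂ) (lam : ℂ →ₗ[k] k) :
    (Y0 ξ D lam).baseChange ℝ ∈ gR (K := K) ξ := by
  intro κ _ _ φ hφ
  exact kills_ext _ φ (fun v => bcm_one _ φ v) _ ((drb0_iff ξ (Module.finBasis k T) φ).1 hφ D lam)

include hcl hγ in
theorem gR_skew {x : Module.End ℝ (ℝ ⊗[k] T)} (hx : x ∈ gR (K := K) ξ) (u v : ℝ ⊗[k] T) :
    bx ℝ b (x u) v + bx ℝ b u (x v) = 0 := by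
  have h1 := hx _ _ (drb_b (K := K) ξ θ b γ hcl hγ)
  have h2 : bcm (Ω := ℝ) (Module.finBasis k T) (one2 b) = one2 (bx ℝ b) :=
    MultilinearMap.ext fun v => bcm_one2 b _ v
  rw [h2, kills_one2] at h1
  exact h1 u v

theorem bx_symm (Ω : Type) [Field Ω] [CharZero Ω] [Algebra k Ω] (hsym : ∀ u v, b u v = b v u)
    (u v : Ω ⊗[k] T) : bx Ω b u v = bx Ω b v u := by
  have h : bx Ω b = (bx Ω b).flip := by
    apply bilin_ext
    intro u v
    rw [LinearMap.flip_apply, bx_one, bx_one, hsym]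
  have h1 := congrArg (fun B : Ω ⊗[k] T →ₗ[Ω] Ω ⊗[k] T →ₗ[Ω] Ω => B u v) h
  exact h1

theorem bx_nondeg (Ω : Type) [Field Ω] [CharZero Ω] [Algebra k Ω]
    (hnd : ∀ u, (∀ v, b u v = 0) → u = 0) (u : Ω ⊗[k] T) (h : ∀ v, bx Ω b u v = 0) : u = 0 :=
  nondeg_ext b (bx Ω b) (bx_one b Ω) hnd u h

include hsym hnd hcl hγ hss hend in
/-- The real Lie algebra satisfies all conditions. -/
theorem good (S1 : S_IRRL) (S2 : S_DESC) (S3 : S_KILL) (hn : 3 ≤ finrank k T)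
    (hsig : SignatureTwo (bx ℝ b)) : Good (bx ℝ b) (gR (K := K) ξ) := by
  -- irreducibility over the complex numbers
  have h1 := S1 k ℂ T H b γ {p | ∃ (D : Derivation K ℂ ℂ) (lam : ℂ →ₗ[k] k),
    p = (Y0 θ D lam, Y0 ξ D lam)} hsym hnd hn hcl
    (by
      rintro p ⟨D, lam, rfl⟩ t
      exact comm_gamma ξ θ γ hγ D lam t)
    (by
      rintro p ⟨D, lam, rfl⟩
      exact skew_Y0 ξ θ b γ hcl hγ D lam)
    (by
      intro u v
      have h2 := even_mem (K := K) θ γ hss hend u v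
      have h3 : {Z | ∃ p ∈ {p : Module.End k H × Module.End k T |
          ∃ (D : Derivation K ℂ ℂ) (lam : ℂ →ₗ[k] k), p = (Y0 θ D lam, Y0 ξ D lam)}, p.1 = Z} =
          {Z | ∃ (D : Derivation K ℂ ℂ) (lam : ℂ →ₗ[k] k), Z = Y0 θ D lam} := by
        ext Z
        constructor
        · rintro ⟨p, ⟨D, lam, rfl⟩, rfl⟩
          exact ⟨D, lam, rfl⟩
        · rintro ⟨D, lam, rfl⟩
          exact ⟨_, ⟨D, lam, rfl⟩, rfl⟩
      rw [h3]
      exact h2)
  have h2 := S2 k T {x | ∃ (D : Derivation K ℂ ℂ) (lam : ℂ →ₗ[k] k), x = Y0 ξ D lam}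
    (by
      intro U hU
      refine h1 U ?_
      rintro p ⟨D, lam, rfl⟩ u hu
      exact hU _ ⟨D, lam, rfl⟩ u hu)
  have hskew : ∀ x ∈ gR (K := K) ξ, ∀ u v, bx ℝ b (x u) v + bx ℝ b u (x v) = 0 :=
    fun x hx => gR_skew ξ θ b γ hcl hγ hx
  have hbr : ∀ x ∈ gR (K := K) ξ, ∀ y ∈ gR (K := K) ξ, x * y - y * x ∈ gR (K := K) ξ := by
    intro x hx y hy κ _ _ φ hφ
    exact kills_bracket (hx κ φ hφ) (hy κ φ hφ)
  have hirr : ∀ U : Submodule ℝ (ℝ ⊗[k] T), (∀ x ∈ gR (K := K) ξ, ∀ u ∈ U, x u ∈ U) →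
      U = ⊥ ∨ U = ⊤ := by
    intro U hU
    refine h2.1 U ?_
    rintro x ⟨D, lam, rfl⟩ u hu
    exact hU _ (Y0_mem ξ D lam) u hu
  have hcomm : ∀ P : Module.End ℝ (ℝ ⊗[k] T), (∀ x ∈ gR (K := K) ξ, x * P = P * x) →
      ∃ c : ℝ, P = c • 1 := by
    intro P hP
    refine h2.2 P ?_
    rintro x ⟨D, lam, rfl⟩
    exact hP _ (Y0_mem ξ D lam)
  have hnd' : ∀ u, (∀ v, bx ℝ b u v = 0) → u = 0 := bx_nondeg b ℝ hnd
  refine ⟨bx_symm b ℝ hsym, hnd', witt_of_signature _ hsig, hskew, hbr, hirr, hcomm, ?_, ?_⟩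
  · intro x hx htr
    refine trace_nondeg (gR (K := K) ξ) ?_ hbr (bx ℝ b) hskew ?_ hx htr
    · intro U hU
      rcases hirr U hU with rfl | rfl
      · exact ⟨⊤, fun _ _ _ _ => trivial, isCompl_bot_top⟩
      · exact ⟨⊥, fun X _ u hu => by
          rw [Submodule.mem_bot] at hu
          rw [hu, map_zero]
          exact Submodule.zero_mem _, isCompl_top_bot⟩
    · intro Z hZ hZc _
      obtain ⟨c, rfl⟩ := hcomm Z hZc
      refine LinearMap.ext fun u => hnd' _ fun v => ?_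
      have h3 := hZ u v
      simp only [LinearMap.smul_apply, Module.End.one_apply, map_smul, smul_eq_mul] at h3 ⊢
      linarith
  · intro y z hyz hc hy hz κ _ _ φ hφ
    exact S3 _ κ _ y z hc hy hz (hyz κ φ hφ)

include hsym hnd hcl hγ hss hend in
/-- All skew endomorphisms kill the de Rham-Betti forms. -/
theorem kills_of_skew (S1 : S_IRRL) (S2 : S_DESC) (S3 : S_KILL) (S4 : S_REAL)
    (hn : 6 ≤ finrank k T) (hsig : SignatureTwo (bx ℝ b)) {κ : Type} [Fintype κ] [DecidableEq κ]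
    (φ : MultilinearMap k (fun _ : κ => T) k) (hφ : IsDRBForm K (ξ : ι → (T →ₗ[k] ℂ)) φ)
    (x : Module.End k T) (hx : ∀ u v, b (x u) v + b u (x v) = 0) : Kills x φ := by
  have hn' : 6 ≤ finrank ℝ (ℝ ⊗[k] T) := by rwa [Module.finrank_baseChange]
  obtain ⟨hp, hm⟩ := indef_of_signature _ hsig (by omega)
  have h1 := S4 _ (bx ℝ b) _ (good (K := K) ξ θ b γ hsym hnd hcl hγ hss hend S1 S2 S3
    (by omega) hsig) hn' hp hm (x.baseChange ℝ) (skew_ext b (bx ℝ b) (bx_one b ℝ) hx)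
  have h2 := h1 κ φ hφ
  intro v
  have h3 := h2 (fun l => (1 : ℝ) ⊗ₜ[k] v l)
  have h4 : ∀ j, Function.update (fun l => (1 : ℝ) ⊗ₜ[k] v l) j
      ((x.baseChange ℝ) ((1 : ℝ) ⊗ₜ[k] v j)) =
      fun l => (1 : ℝ) ⊗ₜ[k] Function.update v j (x (v j)) l := by
    intro j
    funext l
    by_cases hl : l = j
    · subst hl
      rw [Function.update_self, Function.update_self, LinearMap.baseChange_tmul]
    · rw [Function.update_of_ne hl, Function.update_of_ne hl]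
  simp only [h4, bcm_one] at h3
  rw [← map_sum] at h3
  exact (map_eq_zero_iff _ (algebraMap k ℝ).injective).1 h3

end

end Pool.Agent.W516.K3
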