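import Mathlib
import Pool.Agent.W516.K3.Main

/-!
# The Lie algebra of the de Rham-Betti forms: forms of real Witt index at most two
-/

set_option linter.unusedSectionVars false

namespace Pool.Agent.W516.K3

open Module TensorProduct Pool.Agent.H204R3.SP Pool.Agent.H204R3.GP Pool.Agent.W516.DR
  Pool.Agent.W516.KC

noncomputable section

/-- The real form `b` is indefinite and has no totally isotropic subspace of dimension three. -/
def WittTwo {V : Type} [AddCommGroup V] [Module ℝ V] (b : V →ₗ[ℝ] V →ₗ[ℝ] ℝ) : Prop :=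
  (∃ v, 0 < b v v) ∧ (∃ v, b v v < 0) ∧
    ∀ W : Submodule ℝ V, (∀ u ∈ W, ∀ v ∈ W, b u v = 0) → finrank ℝ W ≤ 2

variable {k K : Type} [Field k] [Field K] [CharZero k] [CharZero K] [IsAlgClosed K] [Algebra k K]
  [Algebra k ℂ] [Algebra K ℂ] [IsScalarTower k K ℂ] [Algebra k ℝ] [IsScalarTower k ℝ ℂ]
  {T : Type} [AddCommGroup T] [Module k T] [FiniteDimensional k T]
  {H : Type} [AddCommGroup H] [Module k H] [FiniteDimensional k H] [Nontrivial H]
  {ι ν : Type} [Fintype ι] [DecidableEq ι] [Fintype ν] [DecidableEq ν]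
  (ξ : Basis ι ℂ (T →ₗ[k] ℂ)) (θ : Basis ν ℂ (H →ₗ[k] ℂ))
  (b : T →ₗ[k] T →ₗ[k] k) (γ : T →ₗ[k] Module.End k H)
  (hsym : ∀ u v, b u v = b v u) (hnd : ∀ u, (∀ v, b u v = 0) → u = 0)
  (hcl : ∀ u v, γ u * γ v + γ v * γ u = (2 * b u v) • (1 : Module.End k H))
  (hγ : IsDRBAction K (ξ : ι → (T →ₗ[k] ℂ)) (θ : ν → (H →ₗ[k] ℂ)) γ)
  (hss : DeRhamBettiSemisimple K (θ : ν → (H →ₗ[k] ℂ)))
  (hend : ∀ P : Module.End k H, IsDeRhamBettiEnd K (θ : ν → (H →ₗ[k] ℂ)) P →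
    ∀ u v, P * (γ u * γ v) = (γ u * γ v) * P)

include hsym hnd hcl hγ hss hend in
/-- Irreducibility over the real numbers. -/
theorem irr_facts (S1 : S_IRRL) (S2 : S_DESC) (hn : 3 ≤ finrank k T) :
    (∀ U : Submodule ℝ (ℝ ⊗[k] T), (∀ x ∈ {x : Module.End k T |
      ∃ (D : Derivation K ℂ ℂ) (lam : ℂ →ₗ[k] k), x = Y0 ξ D lam}, ∀ u ∈ U,
        x.baseChange ℝ u ∈ U) → U = ⊥ ∨ U = ⊤) ∧
    (∀ P : Module.End ℝ (ℝ ⊗[k] T), (∀ x ∈ {x : Module.End k T |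
      ∃ (D : Derivation K ℂ ℂ) (lam : ℂ →ₗ[k] k), x = Y0 ξ D lam},
        x.baseChange ℝ * P = P * x.baseChange ℝ) → ∃ c : ℝ, P = c • 1) := by
  have h1 := S1 k ℂ T H b γ {p | ∃ (D : Derivation K ℂ ℂ) (lam : ℂ →ₗ[k] k),
    p = (Y0 θ D lam, Y0 ξ D lam)} hsym hnd hn hcl
    (by
      rintro p ⟨D, lam, rfl⟩ t
      exact comm_gamma ξ θ γ hγ D lam t)
    (by
      rintro p ⟨D, lam, rfl⟩
      exact skew_Y0 ξ θ b γ hcl hγ D lam)
    (by
      intro u v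
      have h2 := even_mem (K := K) θ γ hss hend u v
      have h3 : {Z | ∃ p ∈ {p : Module.End k H × Module.End k T |
          ∃ (D : Derivation K ℂ ℂ) (lam : ℂ →ₗ[k] k), p = (Y0 θ D lam, Y0 ξ D lam)}, p.1 = Z} =
          {Z | ∃ (D : Derivation K ℂ ℂ) (lam : ℂ →ₗ[k] k), Z = Y0 θ D lam} := by
        ext Z
        constructor
        · rintro ⟨p, ⟨D, lam, rfl⟩, rfl⟩
          exact ⟨D, lam, rfl⟩
        · rintro ⟨D, lam, rfl⟩
          exact ⟨_, ⟨D, lam, rfl⟩, rfl⟩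
      rw [h3]
      exact h2)
  exact S2 k T {x | ∃ (D : Derivation K ℂ ℂ) (lam : ℂ →ₗ[k] k), x = Y0 ξ D lam}
    (by
      intro U hU
      refine h1 U ?_
      rintro p ⟨D, lam, rfl⟩ u hu
      exact hU _ ⟨D, lam, rfl⟩ u hu)

include hsym hnd hcl hγ hss hend in
/-- The real Lie algebra satisfies all conditions. -/
theorem good' (S1 : S_IRRL) (S2 : S_DESC) (S3 : S_KILL) (hn : 3 ≤ finrank k T)
    (hsig : WittTwo (bx ℝ b)) : Good (bx ℝ b) (gR (K := K) ξ) := by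
  have h2 := irr_facts (K := K) ξ θ b γ hsym hnd hcl hγ hss hend S1 S2 hn
  have hskew : ∀ x ∈ gR (K := K) ξ, ∀ u v, bx ℝ b (x u) v + bx ℝ b u (x v) = 0 :=
    fun x hx => gR_skew ξ θ b γ hcl hγ hx
  have hbr : ∀ x ∈ gR (K := K) ξ, ∀ y ∈ gR (K := K) ξ, x * y - y * x ∈ gR (K := K) ξ := by
    intro x hx y hy κ _ _ φ hφ
    exact kills_bracket (hx κ φ hφ) (hy κ φ hφ)
  have hirr : ∀ U : Submodule ℝ (ℝ ⊗[k] T), (∀ x ∈ gR (K := K) ξ, ∀ u ∈ U, x u ∈ U) →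
      U = ⊥ ∨ U = ⊤ := by
    intro U hU
    refine h2.1 U ?_
    rintro x ⟨D, lam, rfl⟩ u hu
    exact hU _ (Y0_mem ξ D lam) u hu
  have hcomm : ∀ P : Module.End ℝ (ℝ ⊗[k] T), (∀ x ∈ gR (K := K) ξ, x * P = P * x) →
      ∃ c : ℝ, P = c • 1 := by
    intro P hP
    refine h2.2 P ?_
    rintro x ⟨D, lam, rfl⟩
    exact hP _ (Y0_mem ξ D lam)
  have hnd' : ∀ u, (∀ v, bx ℝ b u v = 0) → u = 0 := bx_nondeg b ℝ hnd
  refine ⟨bx_symm b ℝ hsym, hnd', hsig.2.2, hskew, hbr, hirr, hcomm, ?_, ?_⟩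
  · intro x hx htr
    refine trace_nondeg (gR (K := K) ξ) ?_ hbr (bx ℝ b) hskew ?_ hx htr
    · intro U hU
      rcases hirr U hU with rfl | rfl
      · exact ⟨⊤, fun _ _ _ _ => trivial, isCompl_bot_top⟩
      · exact ⟨⊥, fun X _ u hu => by
          rw [Submodule.mem_bot] at hu
          rw [hu, map_zero]
          exact Submodule.zero_mem _, isCompl_top_bot⟩
    · intro Z hZ hZc _
      obtain ⟨c, rfl⟩ := hcomm Z hZc
      refine LinearMap.ext fun u => hnd' _ fun v => ?_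
      have h3 := hZ u v
      simp only [LinearMap.smul_apply, Module.End.one_apply, map_smul, smul_eq_mul] at h3 ⊢
      linarith
  · intro y z hyz hc hy hz κ _ _ φ hφ
    exact S3 _ κ _ y z hc hy hz (hyz κ φ hφ)

include hsym hnd hcl hγ hss hend in
/-- All skew endomorphisms kill the de Rham-Betti forms. -/
theorem kills_of_skew' (S1 : S_IRRL) (S2 : S_DESC) (S3 : S_KILL) (S4 : S_REAL)
    (hn : 6 ≤ finrank k T) (hsig : WittTwo (bx ℝ b)) {κ : Type} [Fintype κ] [DecidableEq κ]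
    (φ : MultilinearMap k (fun _ : κ => T) k) (hφ : IsDRBForm K (ξ : ι → (T →ₗ[k] ℂ)) φ)
    (x : Module.End k T) (hx : ∀ u v, b (x u) v + b u (x v) = 0) : Kills x φ := by
  have hn' : 6 ≤ finrank ℝ (ℝ ⊗[k] T) := by rwa [Module.finrank_baseChange]
  have hp := hsig.1
  have hm := hsig.2.1
  have h1 := S4 _ (bx ℝ b) _ (good' (K := K) ξ θ b γ hsym hnd hcl hγ hss hend S1 S2 S3
    (by omega) hsig) hn' hp hm (x.baseChange ℝ) (skew_ext b (bx ℝ b) (bx_one b ℝ) hx)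
  have h2 := h1 κ φ hφ
  intro v
  have h3 := h2 (fun l => (1 : ℝ) ⊗ₜ[k] v l)
  have h4 : ∀ j, Function.update (fun l => (1 : ℝ) ⊗ₜ[k] v l) j
      ((x.baseChange ℝ) ((1 : ℝ) ⊗ₜ[k] v j)) =
      fun l => (1 : ℝ) ⊗ₜ[k] Function.update v j (x (v j)) l := by
    intro j
    funext l
    by_cases hl : l = j
    · subst hl
      rw [Function.update_self, Function.update_self, LinearMap.baseChange_tmul]
    · rw [Function.update_of_ne hl, Function.update_of_ne hl]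
  simp only [h4, bcm_one] at h3
  rw [← map_sum] at h3
  exact (map_eq_zero_iff _ (algebraMap k ℝ).injective).1 h3

end

end Pool.Agent.W516.K3
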