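import Mathlib
import Pool.Agent.W516.K3.Defs

/-!
# More statements for the project DK
-/

namespace Pool.Agent.W516.K3

open Module TensorProduct Polynomial

/-- Sums of commuting endomorphisms, and endomorphisms that satisfy the same polynomials. -/
def S_SUM : Prop :=
  (∀ (V : Type) [AddCommGroup V] [Module ℝ V] [FiniteDimensional ℝ V] (A B : Module.End ℝ V),
    A * B = B * A → NoRe A → NoRe B → NoRe (A + B)) ∧
  (∀ (V : Type) [AddCommGroup V] [Module ℝ V] [FiniteDimensional ℝ V] (A B : Module.End ℝ V),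
    A * B = B * A → IsHyp A → IsHyp B → IsHyp (A + B)) ∧
  (∀ (V W : Type) [AddCommGroup V] [Module ℝ V] [FiniteDimensional ℝ V]
    [AddCommGroup W] [Module ℝ W] [FiniteDimensional ℝ W] (A : Module.End ℝ V)
    (B : Module.End ℝ W), (∀ p : ℝ[X], aeval A p = 0 → aeval B p = 0) → NoRe A → NoRe B) ∧
  (∀ (V W : Type) [AddCommGroup V] [Module ℝ V] [FiniteDimensional ℝ V]
    [AddCommGroup W] [Module ℝ W] [FiniteDimensional ℝ W] (A : Module.End ℝ V)
    (B : Module.End ℝ W), (∀ p : ℝ[X], aeval A p = 0 → aeval B p = 0) → IsHyp A → IsHyp B)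

end Pool.Agent.W516.K3
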