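import Mathlib
import Pool.Agent.W516.K3.Defs

/-!
# Statements for the project DK: the direct sum of a trivial object and `T`
-/

namespace Pool.Agent.W516.K3

open Module TensorProduct

variable {k T : Type} [Field k] [AddCommGroup T] [Module k T] {c : ℕ} {κ : Type} [Fintype κ]
  [DecidableEq κ]

/-- The vector `(e_j, 0)` or `(0, t)`. -/
def mixed (A : Finset κ) (j : κ → Fin c) (t : {l : κ // l ∉ A} → T) : κ → (Fin c → k) × T :=
  fun l => if h : l ∈ A then (Pi.single (j l) 1, 0) else (0, t ⟨l, h⟩)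

/-- A product of values of `b` on pairs of variables and of coordinates of the other variables. -/
def IsMonomial (b : T →ₗ[k] T →ₗ[k] k)
    (φ : MultilinearMap k (fun _ : κ => (Fin c → k) × T) k) : Prop :=
  ∃ (m : ℕ) (s : Finset κ) (e : Fin m × Fin 2 ≃ {l : κ // l ∉ s}) (j : κ → Fin c),
    ∀ v, φ v = (∏ l, b (v (e (l, 0))).2 (v (e (l, 1))).2) * ∏ i ∈ s, (v i).1 (j i)

/-- The partial evaluation of a multilinear form on `k^c × T` as a form on `T`. -/
def IsPart (φ : MultilinearMap k (fun _ : κ => (Fin c → k) × T) k) (A : Finset κ) (j : κ → Fin c)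
    (ψ : MultilinearMap k (fun _ : {l : κ // l ∉ A} => T) k) : Prop :=
  ∀ t, ψ t = φ (mixed A j t)

/-- The partial evaluations exist. -/
def S_PART : Prop :=
  ∀ (k T : Type) [Field k] [AddCommGroup T] [Module k T] (c : ℕ) (κ : Type) [Fintype κ]
    [DecidableEq κ] (φ : MultilinearMap k (fun _ : κ => (Fin c → k) × T) k) (A : Finset κ)
    (j : κ → Fin c), ∃ ψ : MultilinearMap k (fun _ : {l : κ // l ∉ A} => T) k, IsPart φ A j ψ

/-- If all partial evaluations are combinations of products of values of `b`, then the form is a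
combination of monomials. -/
def S_TOT : Prop :=
  ∀ (k T : Type) [Field k] [CharZero k] [AddCommGroup T] [Module k T] [FiniteDimensional k T]
    (b : T →ₗ[k] T →ₗ[k] k) (c : ℕ) (κ : Type) [Fintype κ] [DecidableEq κ]
    (φ : MultilinearMap k (fun _ : κ => (Fin c → k) × T) k), 0 < c →
    (∀ (A : Finset κ) (j : κ → Fin c) (ψ : MultilinearMap k (fun _ : {l : κ // l ∉ A} => T) k),
      IsPart φ A j ψ → ψ ∈ Submodule.span k {ψ' | PairProd b ψ'}) →
    φ ∈ Submodule.span k {φ' | IsMonomial b φ'}

/-- If all partial evaluations are killed by `x` then the form is killed by `(0, x)`. -/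
def S_KTOT : Prop :=
  ∀ (k T : Type) [Field k] [CharZero k] [AddCommGroup T] [Module k T] [FiniteDimensional k T]
    (c : ℕ) (κ : Type) [Fintype κ] [DecidableEq κ]
    (φ : MultilinearMap k (fun _ : κ => (Fin c → k) × T) k), 0 < c →
    ∀ x : Module.End k T,
    (∀ (A : Finset κ) (j : κ → Fin c) (ψ : MultilinearMap k (fun _ : {l : κ // l ∉ A} => T) k),
      IsPart φ A j ψ → KillsM x ψ) →
    KillsM ((LinearMap.inr k (Fin c → k) T) ∘ₗ x ∘ₗ (LinearMap.snd k (Fin c → k) T)) φ

end Pool.Agent.W516.K3
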