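import Mathlib
import Pool.Agent.W516.K3.Main

/-!
# Hodge classes on Hodge structures of K3 type
-/

set_option linter.unusedSectionVars false

namespace Pool.Agent.W516.K3

open Module TensorProduct Pool.Agent.H204R3.SP Pool.Agent.H204R3.GP Pool.Agent.W516.DR
  Pool.Agent.W516.KC

noncomputable section

/-- The complex conjugation on `ℂ ⊗ T`. -/
def conjT {k T : Type} [Field k] [Algebra k ℝ] [Algebra k ℂ] [IsScalarTower k ℝ ℂ]
    [AddCommGroup T] [Module k T] : ℂ ⊗[k] T →ₗ[k] ℂ ⊗[k] T :=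
  LinearMap.rTensor T (Complex.conjAe.toLinearMap.restrictScalars k)

/-- The pieces `T^{m, -m}` of the Hodge decomposition of K3 type (and weight zero) of `ℂ ⊗ T` given
by the period `σ`, a generator of `T^{1, -1}`. -/
def hodgePiece {k T : Type} [Field k] [Algebra k ℝ] [Algebra k ℂ] [IsScalarTower k ℝ ℂ]
    [AddCommGroup T] [Module k T] (b : T →ₗ[k] T →ₗ[k] k) (σ : ℂ ⊗[k] T) (m : ℤ) :
    Set (ℂ ⊗[k] T) :=
  {v | (m = 1 ∧ ∃ c : ℂ, v = c • σ) ∨ (m = -1 ∧ ∃ c : ℂ, v = c • conjT σ) ∨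
    (m = 0 ∧ bx ℂ b v σ = 0 ∧ bx ℂ b v (conjT σ) = 0)}

/-- The multilinear form `φ` on `T` is a Hodge class for the Hodge structure given by `σ`: its
complex extension vanishes on `T^{m_1, -m_1} ⊗ ... ⊗ T^{m_r, -m_r}` unless `m_1 + ... + m_r = 0`. -/
def IsHodgeForm {k T κ : Type} [Field k] [Algebra k ℝ] [Algebra k ℂ] [IsScalarTower k ℝ ℂ]
    [AddCommGroup T] [Module k T] [Fintype κ] (b : T →ₗ[k] T →ₗ[k] k) (σ : ℂ ⊗[k] T)
    (φ : MultilinearMap k (fun _ : κ => T) k) : Prop :=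
  ∃ Φ : MultilinearMap ℂ (fun _ : κ => ℂ ⊗[k] T) ℂ,
    (∀ v : κ → T, Φ (fun l => (1 : ℂ) ⊗ₜ[k] v l) = algebraMap k ℂ (φ v)) ∧
    ∀ (m : κ → ℤ) (v : κ → ℂ ⊗[k] T), (∀ l, v l ∈ hodgePiece b σ (m l)) → ∑ l, m l ≠ 0 → Φ v = 0

variable {k : Type} [Field k] [CharZero k]
  [Algebra k ℂ] [Algebra k ℝ] [IsScalarTower k ℝ ℂ]
  {T : Type} [AddCommGroup T] [Module k T] [FiniteDimensional k T]
  (b : T →ₗ[k] T →ₗ[k] k)

theorem conjT_tmul (a : ℂ) (t : T) :
    conjT (a ⊗ₜ[k] t) = (starRingEnd ℂ a) ⊗ₜ[k] t := rfl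

theorem bx_conj (u v : ℂ ⊗[k] T) :
    bx ℂ b (conjT u) (conjT v) = starRingEnd ℂ (bx ℂ b u v) := by
  induction u with
  | zero => simp only [map_zero, LinearMap.zero_apply]
  | add u u' h h' => simp only [map_add, LinearMap.add_apply, h, h']
  | tmul a t =>
    induction v with
    | zero => simp only [map_zero]
    | add v v' h h' => simp only [map_add, h, h']
    | tmul c s =>
      rw [conjT_tmul, conjT_tmul, LinearMap.BilinForm.baseChange_tmul,
        LinearMap.BilinForm.baseChange_tmul, Algebra.smul_def, Algebra.smul_def, map_mul, map_mul,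
        IsScalarTower.algebraMap_apply k ℝ ℂ]
      congr 1
      exact (Complex.conj_ofReal _).symm

/-- A skew endomorphism of `ℂ ⊗ T` kills the extension of a form killed by all skew endomorphisms
of `T`. -/
theorem kills_complex {κ : Type} [Fintype κ] [DecidableEq κ]
    (φ : MultilinearMap k (fun _ : κ => T) k)
    (h : ∀ x : Module.End k T, (∀ u v, b (x u) v + b u (x v) = 0) → Kills x φ)
    {σ : Type} [Fintype σ] [DecidableEq σ] (bs : Basis σ k T)
    (x : Module.End ℂ (ℂ ⊗[k] T)) (hx : ∀ u v, bx ℂ b (x u) v + bx ℂ b u (x v) = 0) :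
    Kills x (bcm (Ω := ℂ) bs φ) := by
  rw [kills_bcm_iff]
  intro lam
  apply h
  intro u v
  rw [cmpE_apply, cmpE_apply, ← lam_omega b (bx ℂ b) (bx_one b ℂ),
    ← lam_omega' b (bx ℂ b) (bx_one b ℂ), ← map_add, hx, map_zero]

/-- A form killed by all skew endomorphisms is a Hodge class. -/
theorem hodge_of_kills {κ : Type} [Fintype κ] [DecidableEq κ]
    (φ : MultilinearMap k (fun _ : κ => T) k)
    (h : ∀ x : Module.End k T, (∀ u v, b (x u) v + b u (x v) = 0) → Kills x φ)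
    (hsym : ∀ u v, b u v = b v u)
    (σ : ℂ ⊗[k] T) (h1 : bx ℂ b σ σ = 0) (h2 : bx ℂ b σ (conjT σ) ≠ 0) : IsHodgeForm b σ φ := by
  classical
  let bs := Module.finBasis k T
  refine ⟨bcm (Ω := ℂ) bs φ, fun v => bcm_one bs φ v, fun m v hv hm => ?_⟩
  set B := bx ℂ b with hB
  have hsym' : ∀ u v, B u v = B v u := bx_symm b ℂ hsym
  set τ := conjT σ with hτ
  have h3 : B τ τ = 0 := by
    rw [hB, hτ, bx_conj, h1, map_zero]
  let x : Module.End ℂ (ℂ ⊗[k] T) := wdg B σ τ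
  have hx : ∀ w, x w = B τ w • σ - B σ w • τ := fun w => rfl
  have hsk : ∀ u w, B (x u) w + B u (x w) = 0 := by
    intro u w
    rw [hx, hx, map_sub, map_sub, LinearMap.sub_apply, map_smul, map_smul, map_smul, map_smul,
      LinearMap.smul_apply, LinearMap.smul_apply, hsym' u σ, hsym' u τ, smul_eq_mul, smul_eq_mul,
      smul_eq_mul, smul_eq_mul]
    ring
  have hk := kills_complex b φ h bs x hsk v
  have hw : ∀ l, x (v l) = ((m l : ℂ) * B σ τ) • v l := by
    intro l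
    rcases hv l with ⟨hm1, c, hc⟩ | ⟨hm1, c, hc⟩ | ⟨hm1, hc, hc'⟩
    · rw [hx, hc, hm1, map_smul, map_smul, h1, hsym' τ σ, smul_zero, zero_smul, sub_zero]
      push_cast
      rw [one_mul, smul_eq_mul, smul_smul, mul_comm]
    · rw [hx, hc, hm1, map_smul, map_smul, ← hτ, h3, smul_zero, zero_smul, zero_sub]
      push_cast
      rw [smul_eq_mul, smul_smul, ← neg_smul]
      congr 1
      ring
    · rw [hx, hm1, hsym' τ, hsym' σ, hc, hc', zero_smul, zero_smul, sub_zero]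
      push_cast
      rw [zero_mul, zero_smul]
  have h4 : ∀ l, bcm (Ω := ℂ) bs φ (Function.update v l (x (v l))) =
      ((m l : ℂ) * B σ τ) * bcm (Ω := ℂ) bs φ v := by
    intro l
    rw [hw, MultilinearMap.map_update_smul, Function.update_eq_self, smul_eq_mul]
  rw [Finset.sum_congr rfl (fun l _ => h4 l), ← Finset.sum_mul, ← Finset.sum_mul,
    ← Int.cast_sum] at hk
  rcases mul_eq_zero.1 hk with h5 | h5
  · rcases mul_eq_zero.1 h5 with h6 | h6
    · exact absurd (Int.cast_eq_zero.1 h6) hm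
    · exact absurd h6 h2
  · exact h5

end

end Pool.Agent.W516.K3
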