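import Mathlib
import Pool.Agent.W516.K3.Hodge
import Pool.Agent.W516.K3.Defs3

/-!
# The direct sum of a trivial object and of the transcendental part
-/

set_option linter.unusedSectionVars false

namespace Pool.Agent.W516.K3

open Module TensorProduct Pool.Agent.H204R3.SP Pool.Agent.H204R3.GP Pool.Agent.W516.DR
  Pool.Agent.W516.KC

noncomputable section

/-- The periods of the direct sum of the trivial object `k^c` and of `T`. -/
def perSum (c : ℕ) {k L T ι : Type} [Field k] [Field L] [Algebra k L] [AddCommGroup T] [Module k T]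
    (ξ : ι → (T →ₗ[k] L)) : Fin c ⊕ ι → ((Fin c → k) × T →ₗ[k] L) :=
  Sum.elim
    (fun i => Algebra.linearMap k L ∘ₗ LinearMap.proj i ∘ₗ LinearMap.fst k (Fin c → k) T)
    (fun j => ξ j ∘ₗ LinearMap.snd k (Fin c → k) T)

/-- The bilinear form `b` on the direct sum. -/
def bSum (c : ℕ) {k T : Type} [Field k] [AddCommGroup T] [Module k T]
    (b : T →ₗ[k] T →ₗ[k] k) : (Fin c → k) × T →ₗ[k] (Fin c → k) × T →ₗ[k] k :=
  b.compl₁₂ (LinearMap.snd k (Fin c → k) T) (LinearMap.snd k (Fin c → k) T)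

/-- The inclusion of `Ω ⊗ T` in the extension of the direct sum. -/
def inrC (c : ℕ) (Ω : Type) {k T : Type} [Field k] [Field Ω] [Algebra k Ω] [AddCommGroup T]
    [Module k T] : Ω ⊗[k] T →ₗ[Ω] Ω ⊗[k] ((Fin c → k) × T) :=
  (LinearMap.inr k (Fin c → k) T).baseChange Ω

section Part

variable {k K L : Type} [Field k] [Field K] [Field L] [Algebra k K] [Algebra k L] [Algebra K L]
  [IsScalarTower k K L]
  {T : Type} [AddCommGroup T] [Module k T] {ι : Type} [Fintype ι] [DecidableEq ι] {c : ℕ}

/-- The partial evaluations of a de Rham-Betti form are de Rham-Betti forms. -/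
theorem part_drb (ξ : ι → (T →ₗ[k] L)) {κ : Type} [Fintype κ] [DecidableEq κ]
    (φ : MultilinearMap k (fun _ : κ => (Fin c → k) × T) k)
    (hφ : IsDRBForm K (perSum c ξ) φ) (A : Finset κ) (j : κ → Fin c)
    (ψ : MultilinearMap k (fun _ : {l : κ // l ∉ A} => T) k) (hψ : IsPart φ A j ψ) :
    IsDRBForm K ξ ψ := by
  classical
  obtain ⟨a, ha⟩ := hφ
  let E : ({l : κ // l ∉ A} → ι) → (κ → Fin c ⊕ ι) :=
    fun J l => if h : l ∈ A then Sum.inl (j l) else Sum.inr (J ⟨l, h⟩)
  have hE : Function.Injective E := by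
    intro J J' h
    funext l
    have h1 := congrFun h l.1
    simp only [E, dif_neg l.2] at h1
    exact Sum.inr_injective h1
  refine ⟨fun J => a (E J), fun t => ?_⟩
  rw [hψ t, ha]
  symm
  refine Fintype.sum_of_injective E hE _ _ ?_ ?_
  · intro J hJ
    by_cases h1 : ∀ l, (l ∈ A → J l = Sum.inl (j l)) ∧ (l ∉ A → ∃ i, J l = Sum.inr i)
    · exfalso
      apply hJ
      have h2 : ∀ l : {l : κ // l ∉ A}, ∃ i, J l.1 = Sum.inr i := fun l => (h1 l.1).2 l.2
      choose J' hJ' using h2
      refine ⟨J', ?_⟩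
      funext l
      by_cases hl : l ∈ A
      · simp only [E, dif_pos hl]
        exact ((h1 l).1 hl).symm
      · simp only [E, dif_neg hl]
        exact (hJ' ⟨l, hl⟩).symm
    · push Not at h1
      obtain ⟨l, hl⟩ := h1
      have h2 : perSum c ξ (J l) (mixed A j t l) = 0 := by
        by_cases hlA : l ∈ A
        · have h3 : J l ≠ Sum.inl (j l) := by
            intro h4
            obtain ⟨h5, -⟩ := hl (fun _ => h4)
            exact h5 hlA
          rcases hJl : J l with i | i
          · have h4 : i ≠ j l := by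
              rintro rfl
              exact h3 hJl
            simp only [perSum, mixed, dif_pos hlA, Sum.elim_inl, LinearMap.comp_apply,
              LinearMap.fst_apply, LinearMap.proj_apply, Pi.single_eq_of_ne h4, map_zero]
          · simp only [perSum, mixed, dif_pos hlA, Sum.elim_inr, LinearMap.comp_apply,
              LinearMap.snd_apply, map_zero]
        · obtain ⟨-, h5⟩ := hl (fun h => absurd h hlA)
          rcases hJl : J l with i | i
          · simp only [perSum, mixed, dif_neg hlA, Sum.elim_inl, LinearMap.comp_apply,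
              LinearMap.fst_apply, LinearMap.proj_apply, Pi.zero_apply, map_zero]
          · exact absurd hJl (h5 i)
      rw [Finset.prod_eq_zero (Finset.mem_univ l) h2, mul_zero]
  · intro J
    congr 1
    have h1 : ∏ l, perSum c ξ (E J l) (mixed A j t l) =
        ∏ l : κ, if h : l ∈ A then 1 else ξ (J ⟨l, h⟩) (t ⟨l, h⟩) := by
      refine Finset.prod_congr rfl fun l _ => ?_
      by_cases hl : l ∈ A
      · simp only [perSum, mixed, E, dif_pos hl, Sum.elim_inl, LinearMap.comp_apply,
          LinearMap.fst_apply, LinearMap.proj_apply, Pi.single_eq_same, Algebra.linearMap_apply,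
          map_one]
      · simp only [perSum, mixed, E, dif_neg hl, Sum.elim_inr, LinearMap.comp_apply,
          LinearMap.snd_apply]
    rw [h1]
    symm
    rw [← Finset.prod_subset (Finset.subset_univ (Finset.univ.filter (fun l => l ∉ A)))]
    · refine Finset.prod_bij (fun (l : κ) (hl : l ∈ Finset.univ.filter (fun l => l ∉ A)) =>
        (⟨l, (Finset.mem_filter.1 hl).2⟩ : {l : κ // l ∉ A})) ?_ ?_ ?_ ?_
      · intro l _
        exact Finset.mem_univ _
      · intro l _ l' _ h
        exact Subtype.ext_iff.1 h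
      · intro l _
        exact ⟨l.1, Finset.mem_filter.2 ⟨Finset.mem_univ _, l.2⟩, rfl⟩
      · intro l hl
        rw [dif_neg (Finset.mem_filter.1 hl).2]
    · intro l _ hl
      have h2 : l ∈ A := by
        by_contra h
        exact hl (Finset.mem_filter.2 ⟨Finset.mem_univ _, h⟩)
      rw [dif_pos h2]

end Part

variable {k : Type} [Field k] [CharZero k]
  [Algebra k ℂ] [Algebra k ℝ] [IsScalarTower k ℝ ℂ]
  {T : Type} [AddCommGroup T] [Module k T] [FiniteDimensional k T]
  (b : T →ₗ[k] T →ₗ[k] k) (c : ℕ)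

theorem conjT_inrC (z : ℂ ⊗[k] T) : conjT (inrC c ℂ z) = inrC c ℂ (conjT z) := by
  induction z with
  | zero => simp only [map_zero]
  | add z z' h h' => simp only [map_add, h, h']
  | tmul a t => rfl

theorem bSum_inrC (Ω : Type) [Field Ω] [CharZero Ω] [Algebra k Ω] (u : Ω ⊗[k] T)
    (v : Ω ⊗[k] ((Fin c → k) × T)) :
    bx Ω (bSum c b) (inrC c Ω u) v =
      bx Ω b u ((LinearMap.snd k (Fin c → k) T).baseChange Ω v) := by
  induction u with
  | zero => simp only [map_zero, LinearMap.zero_apply]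
  | add u u' h h' => simp only [map_add, LinearMap.add_apply, h, h']
  | tmul a t =>
    induction v with
    | zero => simp only [map_zero]
    | add v v' h h' => simp only [map_add, h, h']
    | tmul c' s =>
      rw [inrC, LinearMap.baseChange_tmul, LinearMap.baseChange_tmul,
        LinearMap.BilinForm.baseChange_tmul, LinearMap.BilinForm.baseChange_tmul]
      rfl

theorem bSum_symm (hsym : ∀ u v, b u v = b v u) (u v : (Fin c → k) × T) :
    bSum c b u v = bSum c b v u := hsym _ _

/-- The main computation for Hodge classes. -/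
theorem hodge_of_wdg {V : Type} [AddCommGroup V] [Module k V] [FiniteDimensional k V]
    (B : V →ₗ[k] V →ₗ[k] k) {κ : Type} [Fintype κ] [DecidableEq κ]
    (φ : MultilinearMap k (fun _ : κ => V) k)
    (hsym : ∀ u v, B u v = B v u)
    (σ : ℂ ⊗[k] V) (h1 : bx ℂ B σ σ = 0) (h2 : bx ℂ B σ (conjT σ) ≠ 0)
    (hk : Kills (wdg (bx ℂ B) σ (conjT σ)) (bcm (Ω := ℂ) (Module.finBasis k V) φ)) :
    IsHodgeForm B σ φ := by
  classical
  let bs := Module.finBasis k V
  refine ⟨bcm (Ω := ℂ) bs φ, fun v => bcm_one bs φ v, fun m v hv hm => ?_⟩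
  set B' := bx ℂ B with hB
  have hsym' : ∀ u v, B' u v = B' v u := bx_symm B ℂ hsym
  set τ := conjT σ with hτ
  have h3 : B' τ τ = 0 := by
    rw [hB, hτ, bx_conj, h1, map_zero]
  let x : Module.End ℂ (ℂ ⊗[k] V) := wdg B' σ τ
  have hx : ∀ w, x w = B' τ w • σ - B' σ w • τ := fun w => rfl
  have hk' := hk v
  have hw : ∀ l, x (v l) = ((m l : ℂ) * B' σ τ) • v l := by
    intro l
    rcases hv l with ⟨hm1, c, hc⟩ | ⟨hm1, c, hc⟩ | ⟨hm1, hc, hc'⟩
    · rw [hx, hc, hm1, map_smul, map_smul, h1, hsym' τ σ, smul_zero, zero_smul, sub_zero]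
      push_cast
      rw [one_mul, smul_eq_mul, smul_smul, mul_comm]
    · rw [hx, hc, hm1, map_smul, map_smul, ← hτ, h3, smul_zero, zero_smul, zero_sub]
      push_cast
      rw [smul_eq_mul, smul_smul, ← neg_smul]
      congr 1
      ring
    · rw [hx, hm1, hsym' τ, hsym' σ, hc, hc', zero_smul, zero_smul, sub_zero]
      push_cast
      rw [zero_mul, zero_smul]
  have h4 : ∀ l, bcm (Ω := ℂ) bs φ (Function.update v l (x (v l))) =
      ((m l : ℂ) * B' σ τ) * bcm (Ω := ℂ) bs φ v := by
    intro l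
    rw [hw, MultilinearMap.map_update_smul, Function.update_eq_self, smul_eq_mul]
  have hk2 : ∑ l, bcm (Ω := ℂ) bs φ (Function.update v l (x (v l))) = 0 := hk'
  rw [Finset.sum_congr rfl (fun l _ => h4 l), ← Finset.sum_mul, ← Finset.sum_mul,
    ← Int.cast_sum] at hk2
  rcases mul_eq_zero.1 hk2 with h5 | h5
  · rcases mul_eq_zero.1 h5 with h6 | h6
    · exact absurd (Int.cast_eq_zero.1 h6) hm
    · exact absurd h6 h2
  · exact h5

/-- A form on the direct sum killed by all `(0, x)`, `x` skew, is a Hodge class. -/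
theorem hodge_sum {κ : Type} [Fintype κ] [DecidableEq κ]
    (φ : MultilinearMap k (fun _ : κ => (Fin c → k) × T) k)
    (h : ∀ x : Module.End k T, (∀ u v, b (x u) v + b u (x v) = 0) →
      Kills ((LinearMap.inr k (Fin c → k) T) ∘ₗ x ∘ₗ (LinearMap.snd k (Fin c → k) T)) φ)
    (hsym : ∀ u v, b u v = b v u)
    (σ : ℂ ⊗[k] T) (h1 : bx ℂ b σ σ = 0) (h2 : bx ℂ b σ (conjT σ) ≠ 0) :
    IsHodgeForm (bSum c b) (inrC c ℂ σ) φ := by
  have hp : ∀ u : ℂ ⊗[k] T, (LinearMap.snd k (Fin c → k) T).baseChange ℂ (inrC c ℂ u) = u := by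
    intro u
    rw [inrC, ← LinearMap.comp_apply, ← LinearMap.baseChange_comp, LinearMap.snd_comp_inr,
      LinearMap.baseChange_id, LinearMap.id_apply]
  refine hodge_of_wdg (bSum c b) φ (bSum_symm b c hsym) _ ?_ ?_ ?_
  · rw [bSum_inrC, hp, h1]
  · rw [conjT_inrC, bSum_inrC, hp]
    exact h2
  · rw [kills_bcm_iff]
    intro lam
    have h3 : cmpE lam (wdg (bx ℂ (bSum c b)) (inrC c ℂ σ) (conjT (inrC c ℂ σ))) =
        (LinearMap.inr k (Fin c → k) T) ∘ₗ (cmpE lam (wdg (bx ℂ b) σ (conjT σ))) ∘ₗ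
          (LinearMap.snd k (Fin c → k) T) := by
      refine LinearMap.ext fun t => ?_
      rw [cmpE_apply, conjT_inrC, LinearMap.comp_apply, LinearMap.comp_apply, cmpE_apply,
        ← cmp_baseChange']
      congr 1
      have h4 : ∀ u v : ℂ ⊗[k] T, ∀ w, wdg (bx ℂ (bSum c b)) (inrC c ℂ u) (inrC c ℂ v) w =
          inrC c ℂ (wdg (bx ℂ b) u v ((LinearMap.snd k (Fin c → k) T).baseChange ℂ w)) := by
        intro u v w
        change bx ℂ (bSum c b) (inrC c ℂ v) w • inrC c ℂ u -
          bx ℂ (bSum c b) (inrC c ℂ u) w • inrC c ℂ v = inrC c ℂ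
            (bx ℂ b v ((LinearMap.snd k (Fin c → k) T).baseChange ℂ w) • u -
              bx ℂ b u ((LinearMap.snd k (Fin c → k) T).baseChange ℂ w) • v)
        rw [bSum_inrC, bSum_inrC, map_sub, map_smul, map_smul]
      rw [h4, LinearMap.baseChange_tmul]
      rfl
    rw [h3]
    apply h
    have hsym' : ∀ u v, bx ℂ b u v = bx ℂ b v u := bx_symm b ℂ hsym
    have hsk : ∀ u w, bx ℂ b (wdg (bx ℂ b) σ (conjT σ) u) w +
        bx ℂ b u (wdg (bx ℂ b) σ (conjT σ) w) = 0 := by
      intro u w
      change bx ℂ b (bx ℂ b (conjT σ) u • σ - bx ℂ b σ u • conjT σ) w +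
        bx ℂ b u (bx ℂ b (conjT σ) w • σ - bx ℂ b σ w • conjT σ) = 0
      rw [map_sub, map_sub, LinearMap.sub_apply, map_smul, map_smul, map_smul, map_smul,
        LinearMap.smul_apply, LinearMap.smul_apply, hsym' u σ, hsym' u (conjT σ), smul_eq_mul,
        smul_eq_mul, smul_eq_mul, smul_eq_mul]
      ring
    intro u v
    rw [cmpE_apply, cmpE_apply, ← lam_omega b (bx ℂ b) (bx_one b ℂ),
      ← lam_omega' b (bx ℂ b) (bx_one b ℂ), ← map_add, hsk, map_zero]

end

end Pool.Agent.W516.K3
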