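import Mathlib
import Pool.Agent.W516.K3.Total
import Pool.Agent.W516.K3.Defs2
import Pool.Agent.W125.DK.CPQ
import Pool.Agent.W308.DK.CAS
import Pool.Agent.W308.DK.FFT
import Pool.Agent.W32.DK.IRRL
import Pool.Agent.W327.DK.IRR
import Pool.Agent.W335.DK.NORM
import Pool.Agent.W358.DK.C11
import Pool.Agent.W358.DK.PF
import Pool.Agent.W358.DK.SPLIT
import Pool.Agent.W440.DK.C10
import Pool.Agent.W440.DK.DISC
import Pool.Agent.W440.DK.HYP
import Pool.Agent.W440.DK.KILL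
import Pool.Agent.W440.DK.NT
import Pool.Agent.W440.DK.REAL
import Pool.Agent.W440.DK.SPAN
import Pool.Agent.W358.DK.PART
import Pool.Agent.W417.DK.TOT
import Pool.Agent.W605.DK.KTOT
import Pool.Agent.W613.DK.DESC
import Pool.Agent.W655.DK.SUM
import Pool.Agent.W973.DK.JJ

/-!
# De Rham-Betti forms on the powers of a K3 surface
-/

set_option linter.unusedSectionVars false

namespace Pool.Agent.W516.K3

open Module TensorProduct Pool.Agent.H204R3.SP Pool.Agent.H204R3.GP Pool.Agent.W516.DR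
  Pool.Agent.W516.KC

theorem s_real : S_REAL :=
  Pool.Agent.W440.DK.T_REAL Pool.Agent.W358.DK.T_SPLIT Pool.W335.DK.T_NORM
    (Pool.Agent.W440.DK.T_HYP Pool.Agent.W358.DK.T_PF
      (Pool.Agent.W308.DK.CAS.T_CAS Pool.Agent.W655.DK.T_SUM
        (Pool.Agent.W440.DK.T_NT Pool.Agent.W655.DK.T_SUM))) Pool.Agent.W440.DK.T_C10
    W125.DK.T_CPQ
    (Pool.Agent.W358.DK.T_C11 Pool.Agent.W440.DK.T_DISC W973.DK.T_JJ) Pool.Agent.W440.DK.T_SPAN

noncomputable section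

variable {k K : Type} [Field k] [Field K] [CharZero k] [CharZero K] [IsAlgClosed K] [Algebra k K]
  [Algebra k ℂ] [Algebra K ℂ] [IsScalarTower k K ℂ] [Algebra k ℝ] [IsScalarTower k ℝ ℂ]
  {T : Type} [AddCommGroup T] [Module k T] [FiniteDimensional k T]
  {H : Type} [AddCommGroup H] [Module k H] [FiniteDimensional k H] [Nontrivial H]
  {ι ν : Type} [Fintype ι] [DecidableEq ι] [Fintype ν] [DecidableEq ν]
  (ξ : Basis ι ℂ (T →ₗ[k] ℂ)) (θ : Basis ν ℂ (H →ₗ[k] ℂ))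
  (b : T →ₗ[k] T →ₗ[k] k) (γ : T →ₗ[k] Module.End k H)

theorem drb_total
    (hsym : ∀ u v, b u v = b v u) (hnd : ∀ u, (∀ v, b u v = 0) → u = 0)
    (hn : 6 ≤ finrank k T) (hsig : SignatureTwo (bx ℝ b))
    (hcl : ∀ u v, γ u * γ v + γ v * γ u = (2 * b u v) • (1 : Module.End k H))
    (hγ : IsDRBAction K (ξ : ι → (T →ₗ[k] ℂ)) (θ : ν → (H →ₗ[k] ℂ)) γ)
    (hss : DeRhamBettiSemisimple K (θ : ν → (H →ₗ[k] ℂ)))
    (hend : ∀ P : Module.End k H, IsDeRhamBettiEnd K (θ : ν → (H →ₗ[k] ℂ)) P →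
      ∀ u v, P * (γ u * γ v) = (γ u * γ v) * P)
    (c : ℕ) (hc : 0 < c) {κ : Type} [Fintype κ] [DecidableEq κ]
    (φ : MultilinearMap k (fun _ : κ => (Fin c → k) × T) k)
    (hφ : IsDRBForm K (perSum c (ξ : ι → (T →ₗ[k] ℂ))) φ) :
    (∀ σ : ℂ ⊗[k] T, bx ℂ b σ σ = 0 → bx ℂ b σ (conjT σ) ≠ 0 →
      IsHodgeForm (bSum c b) (inrC c ℂ σ) φ) ∧
    (Fintype.card κ < finrank k T → φ ∈ Submodule.span k {ψ | IsMonomial b ψ}) := by
  have key : ∀ {κ' : Type} [Fintype κ'] [DecidableEq κ']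
      (ψ : MultilinearMap k (fun _ : κ' => T) k), IsDRBForm K (ξ : ι → (T →ₗ[k] ℂ)) ψ →
      ∀ x : Module.End k T, (∀ u v, b (x u) v + b u (x v) = 0) → Kills x ψ := by
    intro κ' _ _ ψ hψ x hx
    exact kills_of_skew (K := K) ξ θ b γ hsym hnd hcl hγ hss hend
      (Pool.Agent.W32.DK.T_IRRL W327.DK.T_IRR) Pool.Agent.W613.DK.T_DESC
      (Pool.Agent.W440.DK.T_KILL Pool.Agent.W655.DK.T_SUM) s_real hn hsig ψ hψ x hx
  have hpart : ∀ (A : Finset κ) (j : κ → Fin c)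
      (ψ : MultilinearMap k (fun _ : {l : κ // l ∉ A} => T) k), IsPart φ A j ψ →
      IsDRBForm K (ξ : ι → (T →ₗ[k] ℂ)) ψ := fun A j ψ hψ => part_drb _ φ hφ A j ψ hψ
  refine ⟨fun σ h1 h2 => ?_, fun hcard => ?_⟩
  · refine hodge_sum b c φ (fun x hx => ?_) hsym σ h1 h2
    exact Pool.Agent.W605.DK.T_KTOT Pool.Agent.W358.DK.T_PART k T c κ φ hc x (fun A j ψ hψ => key ψ (hpart A j ψ hψ) x hx)
  · refine Pool.Agent.W417.DK.T_TOT Pool.Agent.W358.DK.T_PART k T b c κ φ hc fun A j ψ hψ => ?_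
    refine Pool.Agent.W308.DK.T_FFT k T b hsym hnd _ ψ ?_ fun x hx =>
      key ψ (hpart A j ψ hψ) x hx
    exact lt_of_le_of_lt (Fintype.card_subtype_le _) hcard

end

end Pool.Agent.W516.K3
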