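import Mathlib
import Pool.Agent.W516.K3.Defs

/-!
# Statements for the project DH: Clifford modules
-/

namespace Pool.Agent.W516.K3

open Module TensorProduct

/-- If an endomorphism `Z` is skew for `ω` and annihilates the tensor `∑ γ(e_i) ⊗ γ(e'_i)` then it
normalizes the space of the Clifford multiplications. -/
def S_NRM : Prop :=
  ∀ (F T H : Type) [Field F] [CharZero F] [AddCommGroup T] [Module F T] [FiniteDimensional F T]
    [AddCommGroup H] [Module F H] [FiniteDimensional F H] [Nontrivial H]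
    (b : T →ₗ[F] T →ₗ[F] F) (γ : T →ₗ[F] Module.End F H) (ω : H →ₗ[F] H →ₗ[F] F)
    (Z : Module.End F H) (ι : Type) [Fintype ι] (e e' : ι → T),
    (∀ u v, b u v = b v u) →
    (∀ u v, γ u * γ v + γ v * γ u = (2 * b u v) • (1 : Module.End F H)) →
    (∀ u, (∀ v, ω u v = 0) → u = 0) →
    (∀ t, t = ∑ i, b (e' i) t • e i) →
    (∀ u v w y, ∑ i, (ω ((Z * γ (e i) - γ (e i) * Z) u) v * ω (γ (e' i) w) y +
      ω (γ (e i) u) v * ω ((Z * γ (e' i) - γ (e' i) * Z) w) y) = 0) →
    ∃ x : Module.End F T, ∀ t, Z * γ t - γ t * Z = γ (x t)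

/-- A Lie algebra which maps onto the orthogonal Lie algebra contains the spin Lie algebra. -/
def S_SPN : Prop :=
  ∀ (F T H : Type) [Field F] [CharZero F] [AddCommGroup T] [Module F T] [FiniteDimensional F T]
    [AddCommGroup H] [Module F H]
    (b : T →ₗ[F] T →ₗ[F] F) (γ : T →ₗ[F] Module.End F H) (𝔥 : Submodule F (Module.End F H)),
    (∀ u v, b u v = b v u) → (∀ u, (∀ v, b u v = 0) → u = 0) → 5 ≤ finrank F T →
    (∀ u v, γ u * γ v + γ v * γ u = (2 * b u v) • (1 : Module.End F H)) →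
    (∀ X ∈ 𝔥, ∀ Y ∈ 𝔥, X * Y - Y * X ∈ 𝔥) →
    (∀ Z ∈ 𝔥, ∀ P : Module.End F H, (∀ t, P * γ t = γ t * P) → Z * P = P * Z) →
    (∀ u v, ∃ Z ∈ 𝔥, ∀ t, Z * γ t - γ t * Z = γ (wdg b u v t)) →
    ∀ u v, γ u * γ v - γ v * γ u ∈ 𝔥

/-- The extension of a Clifford action. -/
noncomputable def gx (L : Type) {k T H : Type} [Field k] [Field L] [Algebra k L]
    [AddCommGroup T] [Module k T] [AddCommGroup H] [Module k H] (γ : T →ₗ[k] Module.End k H) :
    (L ⊗[k] T) →ₗ[L] Module.End L (L ⊗[k] H) :=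
  LinearMap.liftBaseChange L ((LinearMap.baseChangeHom k L H H) ∘ₗ γ)

/-- A multilinear form annihilated by the spin Lie algebra vanishes on the vectors of the
eigenspaces of the Hodge structure on `H` given by `σ` and `σ'`, unless both occur equally often. -/
def S_HHG : Prop :=
  ∀ (F T H : Type) [Field F] [CharZero F] [AddCommGroup T] [Module F T]
    [AddCommGroup H] [Module F H]
    (b : T →ₗ[F] T →ₗ[F] F) (γ : T →ₗ[F] Module.End F H) (κ : Type) [Fintype κ] [DecidableEq κ]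
    (Φ : MultilinearMap F (fun _ : κ => H) F) (σ σ' : T),
    (∀ u v, γ u * γ v + γ v * γ u = (2 * b u v) • (1 : Module.End F H)) →
    KillsM (γ σ * γ σ' - γ σ' * γ σ) Φ → b σ σ' ≠ 0 →
    ∀ (s : κ → Fin 2) (v : κ → H), (∀ l, s l = 0 → γ σ (v l) = 0) →
      (∀ l, s l = 1 → γ σ' (v l) = 0) →
      2 * (Finset.univ.filter (fun l => s l = 0)).card ≠ Fintype.card κ → Φ v = 0

/-- The forms annihilated by the spin Lie algebra are annihilated by its extension. -/
def S_KXT : Prop :=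
  ∀ (k L T H : Type) [Field k] [CharZero k] [Field L] [CharZero L] [Algebra k L]
    [AddCommGroup T] [Module k T] [FiniteDimensional k T]
    [AddCommGroup H] [Module k H] [FiniteDimensional k H] (γ : T →ₗ[k] Module.End k H)
    (κ : Type) [Fintype κ] [DecidableEq κ] (φ : MultilinearMap k (fun _ : κ => H) k)
    (Φ : MultilinearMap L (fun _ : κ => L ⊗[k] H) L),
    (∀ v : κ → H, Φ (fun l => (1 : L) ⊗ₜ[k] v l) = algebraMap k L (φ v)) →
    (∀ u v, KillsM (γ u * γ v - γ v * γ u) φ) →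
    ∀ u v : L ⊗[k] T, KillsM (gx L γ u * gx L γ v - gx L γ v * gx L γ u) Φ

end Pool.Agent.W516.K3
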