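import Mathlib
import Pool.Agent.W516.K3.Main2
import Pool.Agent.W516.K3.Hodge
import Pool.Agent.W516.K3.Defs4
import Pool.Agent.W516.DRComm

/-!
# The spin Lie algebra annihilates the de Rham-Betti forms on a Clifford module
-/

set_option linter.unusedSectionVars false

namespace Pool.Agent.W516.K3

open Module TensorProduct Pool.Agent.H204R3.SP Pool.Agent.H204R3.GP Pool.Agent.W516.DR
  Pool.Agent.W516.KC

noncomputable section

/-! ### Dual bases -/

section Dual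

variable {F T : Type} [Field F] [CharZero F] [AddCommGroup T] [Module F T] [FiniteDimensional F T]
  (b : T →ₗ[F] T →ₗ[F] F)

theorem exists_dual (hsym : ∀ u v, b u v = b v u) (hnd : ∀ u, (∀ v, b u v = 0) → u = 0) :
    ∃ e e' : Fin (finrank F T) → T, (∀ t, t = ∑ i, b (e' i) t • e i) ∧
      (∀ t, t = ∑ i, b (e i) t • e' i) := by
  classical
  have hinj : Function.Injective b := by
    rw [injective_iff_map_eq_zero]
    intro x hx
    exact hnd x fun v => by rw [hx]; rfl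
  have hsur : Function.Surjective b :=
    (LinearMap.injective_iff_surjective_of_finrank_eq_finrank
      (Subspace.dual_finrank_eq (K := F) (V := T)).symm).1 hinj
  let e := Module.finBasis F T
  have hd : ∀ j, ∃ d : T, ∀ t, b d t = e.coord j t := by
    intro j
    obtain ⟨d, hd⟩ := hsur (e.coord j)
    exact ⟨d, fun t => by rw [hd]⟩
  choose d hd using hd
  have h1 : ∀ t, t = ∑ i, b (d i) t • e i := by
    intro t
    conv_lhs => rw [← e.sum_repr t]
    exact Finset.sum_congr rfl fun i _ => by rw [hd]; rfl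
  refine ⟨e, d, h1, fun t => ?_⟩
  rw [← sub_eq_zero]
  apply hnd
  intro v
  rw [map_sub, LinearMap.sub_apply, map_sum, LinearMap.sum_apply]
  conv_lhs => rw [hsym t v, h1 v]
  rw [map_sum, LinearMap.sum_apply, sub_eq_zero]
  refine Finset.sum_congr rfl fun i _ => ?_
  rw [map_smul, map_smul, LinearMap.smul_apply, LinearMap.smul_apply, smul_eq_mul, smul_eq_mul,
    ← h1 v, mul_comm]

/-- The tensor of a pair of dual bases is invariant. -/
theorem dual_inv {ι : Type} [Fintype ι] (e e' : ι → T) (h1 : ∀ t, t = ∑ i, b (e' i) t • e i)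
    (h2 : ∀ t, t = ∑ i, b (e i) t • e' i) (hsym : ∀ u v, b u v = b v u) (x : Module.End F T)
    (hx : ∀ u v, b (x u) v + b u (x v) = 0) {M : Type} [AddCommGroup M] [Module F M]
    (β : T →ₗ[F] T →ₗ[F] M) : ∑ i, (β (x (e i)) (e' i) + β (e i) (x (e' i))) = 0 := by
  have h3 : ∀ i, β (x (e i)) (e' i) = ∑ j, b (e' j) (x (e i)) • β (e j) (e' i) := by
    intro i
    conv_lhs => rw [h1 (x (e i))]
    rw [map_sum, LinearMap.sum_apply]
    exact Finset.sum_congr rfl fun j _ => by rw [map_smul, LinearMap.smul_apply]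
  have h4 : ∀ i, β (e i) (x (e' i)) = ∑ j, b (e j) (x (e' i)) • β (e i) (e' j) := by
    intro i
    conv_lhs => rw [h2 (x (e' i))]
    rw [map_sum]
    exact Finset.sum_congr rfl fun j _ => by rw [map_smul]
  simp only [h3, h4, Finset.sum_add_distrib]
  rw [Finset.sum_comm (f := fun i j => b (e j) (x (e' i)) • β (e i) (e' j)),
    ← Finset.sum_add_distrib]
  refine Finset.sum_eq_zero fun i _ => ?_
  rw [← Finset.sum_add_distrib]
  refine Finset.sum_eq_zero fun j _ => ?_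
  rw [← add_smul, hsym (e' j), hx, zero_smul]

end Dual

variable {k K : Type} [Field k] [Field K] [CharZero k] [CharZero K] [IsAlgClosed K] [Algebra k K]
  [Algebra k ℂ] [Algebra K ℂ] [IsScalarTower k K ℂ] [Algebra k ℝ] [IsScalarTower k ℝ ℂ]
  {T : Type} [AddCommGroup T] [Module k T] [FiniteDimensional k T]
  {H : Type} [AddCommGroup H] [Module k H] [FiniteDimensional k H] [Nontrivial H]
  {ι ν : Type} [Fintype ι] [DecidableEq ι] [Fintype ν] [DecidableEq ν]
  (ξ : Basis ι ℂ (T →ₗ[k] ℂ)) (θ : Basis ν ℂ (H →ₗ[k] ℂ))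
  (b : T →ₗ[k] T →ₗ[k] k) (γ : T →ₗ[k] Module.End k H)
  (hsym : ∀ u v, b u v = b v u) (hnd : ∀ u, (∀ v, b u v = 0) → u = 0)
  (hcl : ∀ u v, γ u * γ v + γ v * γ u = (2 * b u v) • (1 : Module.End k H))
  (hγ : IsDRBAction K (ξ : ι → (T →ₗ[k] ℂ)) (θ : ν → (H →ₗ[k] ℂ)) γ)
  (hss : DeRhamBettiSemisimple K (θ : ν → (H →ₗ[k] ℂ)))
  (hend : ∀ P : Module.End k H, IsDeRhamBettiEnd K (θ : ν → (H →ₗ[k] ℂ)) P →
    ∀ u v, P * (γ u * γ v) = (γ u * γ v) * P)
  {τ : ℂ} (hτ : τ ≠ 0) (ω : H →ₗ[k] H →ₗ[k] k) (hωnd : ∀ u, (∀ v, ω u v = 0) → u = 0)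
  (hω : IsDeRhamBettiBilinear K (θ : ν → (H →ₗ[k] ℂ)) τ ω)

include hγ in
theorem X0_comm (D : Derivation K ℂ ℂ) (lam : ℂ →ₗ[k] k) (t : T) :
    X0 θ τ D lam * γ t - γ t * X0 θ τ D lam = γ (Y0 ξ D lam t) := by
  rw [← comm_gamma ξ θ γ hγ D lam t]
  ext h
  simp only [LinearMap.sub_apply, Module.End.mul_apply, X0_apply, Y0_apply, map_sub, map_smul]
  abel

/-- The four-form on `H` given by the tensor `∑ γ(e_i) ⊗ γ(e'_i)`. -/
def FF (γ : T →ₗ[k] Module.End k H) (ω : H →ₗ[k] H →ₗ[k] k) {m : ℕ} (e e' : Fin m → T) :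
    MultilinearMap k (fun _ : Fin 2 × Fin 2 => H) k :=
  ∑ i, mmG (1 : Equiv.Perm (Fin 2 × Fin 2)) (fun l : Fin 2 =>
    if l = 0 then ω.comp (γ (e i)) else ω.comp (γ (e' i)))

theorem FF_apply {m : ℕ} (e e' : Fin m → T) (v : Fin 2 × Fin 2 → H) :
    FF γ ω e e' v = ∑ i, ω (γ (e i) (v (0, 0))) (v (0, 1)) *
      ω (γ (e' i) (v (1, 0))) (v (1, 1)) := by
  unfold FF
  rw [sum_apply]
  refine Finset.sum_congr rfl fun i _ => ?_
  rw [mmG_apply, Fin.prod_univ_two, if_pos rfl, if_neg (by decide)]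
  rfl

/-- The condition that a skew endomorphism annihilates the four-form. -/
theorem kills_FF {m : ℕ} (e e' : Fin m → T) {Z : Module.End k H}
    (hZ : ∀ u v, ω (Z u) v + ω u (Z v) = 0) :
    Kills Z (FF γ ω e e') ↔ ∀ u v w y, ∑ i, (ω ((Z * γ (e i) - γ (e i) * Z) u) v *
      ω (γ (e' i) w) y + ω (γ (e i) u) v * ω ((Z * γ (e' i) - γ (e' i) * Z) w) y) = 0 := by
  have key : ∀ u v w y : H, ∑ i, (ω ((Z * γ (e i) - γ (e i) * Z) u) v *
      ω (γ (e' i) w) y + ω (γ (e i) u) v * ω ((Z * γ (e' i) - γ (e' i) * Z) w) y) =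
      -((∑ i, ω (γ (e i) (Z u)) v * ω (γ (e' i) w) y +
        ∑ i, ω (γ (e i) u) (Z v) * ω (γ (e' i) w) y) +
        (∑ i, ω (γ (e i) u) v * ω (γ (e' i) (Z w)) y +
        ∑ i, ω (γ (e i) u) v * ω (γ (e' i) w) (Z y))) := by
    intro u v w y
    rw [← Finset.sum_add_distrib, ← Finset.sum_add_distrib, ← Finset.sum_add_distrib,
      ← Finset.sum_neg_distrib]
    refine Finset.sum_congr rfl fun i _ => ?_
    have h1 := hZ (γ (e i) u) v
    have h2 := hZ (γ (e' i) w) y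
    rw [LinearMap.sub_apply, LinearMap.sub_apply, map_sub, map_sub, LinearMap.sub_apply,
      LinearMap.sub_apply, Module.End.mul_apply, Module.End.mul_apply, Module.End.mul_apply,
      Module.End.mul_apply]
    linear_combination ω (γ (e' i) w) y * h1 + ω (γ (e i) u) v * h2
  constructor
  · intro h u v w y
    have h1 := h (fun p => if p = (0, 0) then u else if p = (0, 1) then v else
      if p = (1, 0) then w else y)
    rw [sum22] at h1
    simp only [FF_apply] at h1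
    rw [key, neg_eq_zero]
    simpa [Function.update] using h1
  · intro h v
    rw [sum22]
    simp only [FF_apply]
    have h1 := h (v (0, 0)) (v (0, 1)) (v (1, 0)) (v (1, 1))
    rw [key, neg_eq_zero] at h1
    simpa [Function.update] using h1

include hsym hcl hγ hτ hω in
/-- The four-form is a de Rham-Betti class. -/
theorem FF_drb {m : ℕ} (e e' : Fin m → T) (h1 : ∀ t, t = ∑ i, b (e' i) t • e i)
    (h2 : ∀ t, t = ∑ i, b (e i) t • e' i) :
    IsDeRhamBettiForm K (θ : ν → (H →ₗ[k] ℂ)) τ 2 (FF γ ω e e') := by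
  rw [drb_iff θ hτ (Module.finBasis k H)]
  intro D lam
  have hsk : ∀ u v, ω (X0 θ τ D lam u) v + ω u (X0 θ τ D lam v) = 0 :=
    skew_of_mem θ hτ ω hω (X0_mem θ hτ D lam)
  rw [kills_FF γ ω e e' hsk]
  intro u v w y
  simp only [X0_comm ξ θ γ hγ]
  let β : T →ₗ[k] T →ₗ[k] k := LinearMap.mk₂ k
    (fun s t => ω (γ s u) v * ω (γ t w) y)
    (fun s s' t => by
      rw [map_add, LinearMap.add_apply, map_add, LinearMap.add_apply, add_mul])
    (fun c s t => by
      rw [map_smul, LinearMap.smul_apply, map_smul, LinearMap.smul_apply, smul_eq_mul,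
        smul_eq_mul, mul_assoc])
    (fun s t t' => by
      rw [map_add, LinearMap.add_apply, map_add, LinearMap.add_apply, mul_add])
    (fun c s t => by
      rw [map_smul, LinearMap.smul_apply, map_smul, LinearMap.smul_apply, smul_eq_mul,
        smul_eq_mul, mul_left_comm])
  exact dual_inv b e e' h1 h2 hsym (Y0 ξ D lam) (skew_Y0 ξ θ b γ hcl hγ D lam) β

include hsym hnd hcl hγ hτ hωnd hω in
/-- The Lie algebra normalizes the Clifford multiplications. -/
theorem normalizes (SN : S_NRM) {Z : Module.End k H}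
    (hZ : Z ∈ hh K (θ : ν → (H →ₗ[k] ℂ)) τ) :
    ∃ x : Module.End k T, ∀ t, Z * γ t - γ t * Z = γ (x t) := by
  obtain ⟨e, e', h1, h2⟩ := exists_dual b hsym hnd
  have hsk : ∀ u v, ω (Z u) v + ω u (Z v) = 0 := skew_of_mem θ hτ ω hω hZ
  refine SN k T H b γ ω Z _ e e' hsym hcl hωnd h1 ?_
  rw [← kills_FF γ ω e e' hsk]
  exact hZ 2 _ (FF_drb ξ θ b γ hsym hcl hγ hτ ω hω e e' h1 h2)

/-- The image of the Lie algebra in the orthogonal Lie algebra. -/
def gk (K : Type) {k : Type} [Field k] [Field K] [Algebra k ℂ] [Algebra K ℂ] {T H ν : Type}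
    [AddCommGroup T] [Module k T] [AddCommGroup H] [Module k H] [Fintype ν]
    (θ : ν → (H →ₗ[k] ℂ)) (γ : T →ₗ[k] Module.End k H) (τ : ℂ) : Submodule k (Module.End k T) where
  carrier := {x | ∃ Z ∈ hh K θ τ, ∀ t, Z * γ t - γ t * Z = γ (x t)}
  zero_mem' := ⟨0, Submodule.zero_mem _, fun t => by
    rw [zero_mul, mul_zero, sub_zero, LinearMap.zero_apply, map_zero]⟩
  add_mem' := by
    rintro x y ⟨Z, hZ, hx⟩ ⟨Z', hZ', hy⟩
    refine ⟨Z + Z', Submodule.add_mem _ hZ hZ', fun t => ?_⟩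
    rw [LinearMap.add_apply, map_add, ← hx, ← hy]
    noncomm_ring
  smul_mem' := by
    rintro c x ⟨Z, hZ, hx⟩
    refine ⟨c • Z, Submodule.smul_mem _ _ hZ, fun t => ?_⟩
    rw [LinearMap.smul_apply, map_smul, ← hx, smul_mul_assoc, mul_smul_comm, smul_sub]

include hcl in
theorem inj_gamma (hnd : ∀ u, (∀ v, b u v = 0) → u = 0) {t : T} (ht : γ t = 0) : t = 0 := by
  apply hnd
  intro v
  have h1 := hcl t v
  rw [ht, zero_mul, mul_zero, add_zero] at h1
  obtain ⟨h, hh⟩ := exists_ne (0 : H)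
  have h2 := congrArg (fun P : Module.End k H => P h) h1.symm
  simp only [LinearMap.zero_apply, LinearMap.smul_apply, Module.End.one_apply] at h2
  have h3 := (smul_eq_zero.1 h2).resolve_right hh
  exact (mul_eq_zero.1 h3).resolve_left two_ne_zero

include hcl in
theorem gk_skew {x : Module.End k T} {Z : Module.End k H}
    (hx : ∀ t, Z * γ t - γ t * Z = γ (x t)) (u v : T) : b (x u) v + b u (x v) = 0 := by
  have h2 : Z * (γ u * γ v + γ v * γ u) - (γ u * γ v + γ v * γ u) * Z =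
      (γ (x u) * γ v + γ v * γ (x u)) + (γ u * γ (x v) + γ (x v) * γ u) := by
    rw [← hx, ← hx]
    noncomm_ring
  rw [hcl, hcl, hcl, mul_smul_comm, smul_mul_assoc, mul_one, one_mul, sub_self, ← add_smul] at h2
  have h3 : (2 * b (x u) v + 2 * b u (x v)) = 0 := by
    obtain ⟨h, hh⟩ := exists_ne (0 : H)
    have h4 := congrArg (fun P : Module.End k H => P h) h2
    simp only [LinearMap.zero_apply, LinearMap.smul_apply, Module.End.one_apply] at h4
    exact (smul_eq_zero.1 h4.symm).resolve_right hh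
  have h4 : (2 : k) * (b (x u) v + b u (x v)) = 0 := by rw [mul_add, h3]
  exact (mul_eq_zero.1 h4).resolve_left two_ne_zero

theorem gk_bracket {x y : Module.End k T} (hx : x ∈ gk K (θ : ν → (H →ₗ[k] ℂ)) γ τ)
    (hy : y ∈ gk K (θ : ν → (H →ₗ[k] ℂ)) γ τ) :
    x * y - y * x ∈ gk K (θ : ν → (H →ₗ[k] ℂ)) γ τ := by
  obtain ⟨Z, hZ, hx⟩ := hx
  obtain ⟨Z', hZ', hy⟩ := hy
  refine ⟨Z * Z' - Z' * Z, hh_bracket _ _ hZ hZ', fun t => ?_⟩
  rw [LinearMap.sub_apply, map_sub, Module.End.mul_apply, Module.End.mul_apply, ← hx (y t),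
    ← hy (x t), ← hx t, ← hy t]
  noncomm_ring

include hγ hτ in
theorem Y0_mem_gk (D : Derivation K ℂ ℂ) (lam : ℂ →ₗ[k] k) :
    Y0 ξ D lam ∈ gk K (θ : ν → (H →ₗ[k] ℂ)) γ τ :=
  ⟨X0 θ τ D lam, X0_mem θ hτ D lam, fun t => X0_comm ξ θ γ hγ D lam t⟩

include hsym hnd hcl hγ hss hend hτ in
/-- The image is the whole orthogonal Lie algebra. -/
theorem mem_gk (S1 : S_IRR) (S1' : S_IRRL) (S2 : S_DESC) (S3 : S_KILL) (S4 : S_REAL)
    (hn : 6 ≤ finrank k T) (hsig : WittTwo (bx ℝ b)) (x : Module.End k T)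
    (hx : ∀ u v, b (x u) v + b u (x v) = 0) : x ∈ gk K (θ : ν → (H →ₗ[k] ℂ)) γ τ := by
  set 𝔤 := gk K (θ : ν → (H →ₗ[k] ℂ)) γ τ with h𝔤
  have hirr : ∀ U : Submodule k T, (∀ x ∈ 𝔤, ∀ u ∈ U, x u ∈ U) → U = ⊥ ∨ U = ⊤ := by
    intro U hU
    refine S1 k T H b γ {p | ∃ (D : Derivation K ℂ ℂ) (lam : ℂ →ₗ[k] k),
      p = (Y0 θ D lam, Y0 ξ D lam)} hsym hnd (by omega) hcl ?_ ?_ ?_ U ?_
    · rintro p ⟨D, lam, rfl⟩ t
      exact comm_gamma ξ θ γ hγ D lam t
    · rintro p ⟨D, lam, rfl⟩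
      exact skew_Y0 ξ θ b γ hcl hγ D lam
    · intro u v
      have h2 := even_mem (K := K) θ γ hss hend u v
      have h3 : {Z | ∃ p ∈ {p : Module.End k H × Module.End k T |
          ∃ (D : Derivation K ℂ ℂ) (lam : ℂ →ₗ[k] k), p = (Y0 θ D lam, Y0 ξ D lam)}, p.1 = Z} =
          {Z | ∃ (D : Derivation K ℂ ℂ) (lam : ℂ →ₗ[k] k), Z = Y0 θ D lam} := by
        ext Z
        constructor
        · rintro ⟨p, ⟨D, lam, rfl⟩, rfl⟩
          exact ⟨D, lam, rfl⟩
        · rintro ⟨D, lam, rfl⟩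
          exact ⟨_, ⟨D, lam, rfl⟩, rfl⟩
      rw [h3]
      exact h2
    · rintro p ⟨D, lam, rfl⟩ u hu
      exact hU _ (Y0_mem_gk ξ θ γ hγ hτ D lam) u hu
  have hsemi : Semi 𝔤 := by
    intro U hU
    rcases hirr U hU with rfl | rfl
    · exact ⟨⊤, fun _ _ _ _ => trivial, isCompl_bot_top⟩
    · exact ⟨⊥, fun X _ u hu => by
        rw [Submodule.mem_bot] at hu
        rw [hu, map_zero]
        exact Submodule.zero_mem _, isCompl_top_bot⟩
  have hbr : ∀ x ∈ 𝔤, ∀ y ∈ 𝔤, x * y - y * x ∈ 𝔤 := fun x hx y hy => gk_bracket θ γ hx hy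
  have hsk : ∀ x ∈ 𝔤, IsSkew b x := by
    rintro x ⟨Z, -, hZ⟩
    exact gk_skew b γ hcl hZ
  -- the commutant
  have hcom : ∀ P : Module.End k T, (∀ x ∈ 𝔤, x * P = P * x) →
      ∃ c : ℝ, P.baseChange ℝ = c • (1 : Module.End ℝ (ℝ ⊗[k] T)) := by
    intro P hP
    refine (irr_facts (K := K) ξ θ b γ hsym hnd hcl hγ hss hend S1' S2 (by omega)).2 _ ?_
    rintro x ⟨D, lam, rfl⟩
    have h1 := hP _ (Y0_mem_gk ξ θ γ hγ hτ D lam)
    have h2 : ∀ A B : Module.End k T, (A * B).baseChange ℝ = A.baseChange ℝ * B.baseChange ℝ :=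
      fun A B => LinearMap.baseChange_comp ..
    rw [← h2, ← h2, h1]
  have hbinj : ∀ P : Module.End k T, P.baseChange ℝ = 0 → P = 0 := by
    intro P hP
    ext t
    have h1 := congrArg (fun Q : Module.End ℝ (ℝ ⊗[k] T) => Q ((1 : ℝ) ⊗ₜ[k] t)) hP
    simp only [LinearMap.baseChange_tmul, LinearMap.zero_apply] at h1
    rw [LinearMap.zero_apply]
    apply hnd
    intro v
    have h2 : bx ℝ b ((1 : ℝ) ⊗ₜ[k] P t) ((1 : ℝ) ⊗ₜ[k] v) = 0 := by
      rw [h1, map_zero, LinearMap.zero_apply]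
    rw [bx_one] at h2
    exact (map_eq_zero_iff _ (algebraMap k ℝ).injective).1 h2
  have hcen : CenterTrivial 𝔤 b := by
    intro Z hZ hZc _
    obtain ⟨c, hc⟩ := hcom Z hZc
    apply hbinj
    have h1 := skew_ext b (bx ℝ b) (bx_one b ℝ) hZ
    refine LinearMap.ext fun u => bx_nondeg b ℝ hnd _ fun v => ?_
    have h3 := h1 u v
    rw [hc] at h3 ⊢
    simp only [LinearMap.smul_apply, Module.End.one_apply, map_smul, smul_eq_mul] at h3 ⊢
    linarith
  refine mem_of_kills_casimir 𝔤 hsemi hbr b hsk hcen hnd hx ?_ ?_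
  · refine kills_of_skew' (K := K) ξ θ b γ hsym hnd hcl hγ hss hend S1' S2 S3 S4 hn hsig _ ?_ x hx
    rw [drb0_iff ξ (Module.finBasis k T)]
    intro D lam
    have h1 := Y0_mem_gk (K := K) ξ θ γ hγ hτ D lam
    exact casimir_kills 𝔤 hsemi hbr b hsk hcen (hsk _ h1) fun X hX => hbr _ h1 X hX
  · intro P hP
    obtain ⟨c, hc⟩ := hcom P hP
    have h2 : ∀ A B : Module.End k T, (A * B).baseChange ℝ = A.baseChange ℝ * B.baseChange ℝ :=
      fun A B => LinearMap.baseChange_comp ..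
    have h3 : x.baseChange ℝ * (c • (1 : Module.End ℝ (ℝ ⊗[k] T))) =
        (c • (1 : Module.End ℝ (ℝ ⊗[k] T))) * x.baseChange ℝ := by
      rw [mul_smul_comm, smul_mul_assoc, mul_one, one_mul]
    have h4 : (x * P).baseChange ℝ = (P * x).baseChange ℝ := by rw [h2, h2, hc, h3]
    have h5 : (x * P - P * x).baseChange ℝ = 0 := by
      rw [LinearMap.baseChange_sub, h4]
      exact sub_self ((P * x).baseChange ℝ)
    exact sub_eq_zero.1 (hbinj _ h5)

include hsym hnd hcl hγ hss hend hτ hωnd hω in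
/-- The spin Lie algebra annihilates all de Rham-Betti forms on `H`. -/
theorem spin_mem (S1 : S_IRR) (S1' : S_IRRL) (S2 : S_DESC) (S3 : S_KILL) (S4 : S_REAL)
    (SS : S_SPN) (hn : 6 ≤ finrank k T) (hsig : WittTwo (bx ℝ b))
    (hC : ∀ P : Module.End k H, (∀ t, P * γ t = γ t * P) →
      IsDeRhamBettiEnd K (θ : ν → (H →ₗ[k] ℂ)) P) (u v : T) :
    γ u * γ v - γ v * γ u ∈ hh K (θ : ν → (H →ₗ[k] ℂ)) τ := by
  refine SS k T H b γ _ hsym hnd (by omega) hcl (fun X hX Y hY => hh_bracket _ _ hX hY) ?_ ?_ u v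
  · intro Z hZ P hP
    exact comm_of_end θ hτ ω hωnd hω (hC P hP) hZ
  · intro u v
    have h1 : ∀ s t, b (wdg b u v s) t + b s (wdg b u v t) = 0 := by
      intro s t
      change b (b v s • u - b u s • v) t + b s (b v t • u - b u t • v) = 0
      rw [map_sub, map_sub, LinearMap.sub_apply, map_smul, map_smul, map_smul, map_smul,
        LinearMap.smul_apply, LinearMap.smul_apply, hsym s u, hsym s v, smul_eq_mul,
        smul_eq_mul, smul_eq_mul, smul_eq_mul]
      ring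
    exact mem_gk ξ θ b γ hsym hnd hcl hγ hss hend hτ S1 S1' S2 S3 S4 hn hsig _ h1

end

end Pool.Agent.W516.K3
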