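import Mathlib
import Pool.Agent.W516.K3.Spin
import Pool.Agent.W516.K3.Final
import Pool.Agent.W563.DH.NRM
import Pool.Agent.W32.DH.SPN
import Pool.Agent.W688.DH.HHG
import Pool.Agent.W108.DH.KXT

/-!
# De Rham-Betti forms on Clifford modules
-/

set_option linter.unusedSectionVars false

namespace Pool.Agent.W516.K3

open Module TensorProduct Pool.Agent.H204R3.SP Pool.Agent.H204R3.GP Pool.Agent.W516.DR
  Pool.Agent.W516.KC

noncomputable section

/-- The multilinear form `φ` on `H` is a Hodge class for the Hodge structure on `H` given by `σ` and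
`σ'`: the complex extension of `φ` vanishes on all families of vectors, each of which is in the
kernel of `γ(σ)` or of `γ(σ')`, except if these two cases occur equally often. -/
def IsHodgeCl {k T H κ : Type} [Field k] [Algebra k ℂ]
    [AddCommGroup T] [Module k T] [AddCommGroup H] [Module k H] [Fintype κ]
    (γ : T →ₗ[k] Module.End k H) (σ σ' : ℂ ⊗[k] T)
    (φ : MultilinearMap k (fun _ : κ => H) k) : Prop :=
  ∃ Φ : MultilinearMap ℂ (fun _ : κ => ℂ ⊗[k] H) ℂ,
    (∀ v : κ → H, Φ (fun l => (1 : ℂ) ⊗ₜ[k] v l) = algebraMap k ℂ (φ v)) ∧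
    ∀ (s : κ → Fin 2) (v : κ → ℂ ⊗[k] H), (∀ l, s l = 0 → gx ℂ γ σ (v l) = 0) →
      (∀ l, s l = 1 → gx ℂ γ σ' (v l) = 0) →
      2 * (Finset.univ.filter (fun l => s l = 0)).card ≠ Fintype.card κ → Φ v = 0

theorem gx_tmul (L : Type) {k T H : Type} [Field k] [Field L] [Algebra k L]
    [AddCommGroup T] [Module k T] [AddCommGroup H] [Module k H] (γ : T →ₗ[k] Module.End k H)
    (a : L) (t : T) : gx L γ (a ⊗ₜ[k] t) = a • (γ t).baseChange L := by
  unfold gx
  rw [LinearMap.liftBaseChange_tmul]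
  rfl

theorem gx_clifford (L : Type) {k T H : Type} [Field k] [Field L] [CharZero L] [Algebra k L]
    [AddCommGroup T] [Module k T] [AddCommGroup H] [Module k H] (γ : T →ₗ[k] Module.End k H)
    (b : T →ₗ[k] T →ₗ[k] k)
    (hcl : ∀ u v, γ u * γ v + γ v * γ u = (2 * b u v) • (1 : Module.End k H))
    (u v : L ⊗[k] T) : gx L γ u * gx L γ v + gx L γ v * gx L γ u =
      (2 * bx L b u v) • (1 : Module.End L (L ⊗[k] H)) := by
  induction u with
  | zero => simp only [map_zero, zero_mul, mul_zero, LinearMap.zero_apply, zero_smul, add_zero]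
  | add u u' h h' =>
    rw [map_add, map_add, LinearMap.add_apply, mul_add, mul_add 2, add_smul, ← h, ← h']
    noncomm_ring
  | tmul a t =>
    induction v with
    | zero => simp only [map_zero, zero_mul, mul_zero, zero_smul, add_zero]
    | add v v' h h' =>
      rw [map_add, map_add, mul_add, mul_add 2, add_smul, ← h, ← h']
      noncomm_ring
    | tmul c s =>
      have h2 : ∀ A B : Module.End k H, (A * B).baseChange L = A.baseChange L * B.baseChange L :=
        fun A B => LinearMap.baseChange_comp ..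
      have h3 := congrArg (LinearMap.baseChange L) (hcl t s)
      rw [LinearMap.baseChange_add, h2, h2] at h3
      rw [gx_tmul, gx_tmul, smul_mul_smul_comm, smul_mul_smul_comm, mul_comm c a, ← smul_add, h3,
        LinearMap.BilinForm.baseChange_tmul]
      refine LinearMap.ext fun z => ?_
      induction z with
      | zero => simp only [map_zero]
      | add z z' h h' => simp only [map_add, h, h']
      | tmul e h =>
        rw [LinearMap.smul_apply, LinearMap.baseChange_tmul, LinearMap.smul_apply,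
          LinearMap.smul_apply, Module.End.one_apply, Module.End.one_apply, tmul_smul, smul_tmul',
          smul_tmul', smul_tmul']
        congr 1
        simp only [Algebra.smul_def, map_mul, map_ofNat, Algebra.algebraMap_self, RingHom.id_apply]
        ring

variable {k K : Type} [Field k] [Field K] [CharZero k] [CharZero K] [IsAlgClosed K] [Algebra k K]
  [Algebra k ℂ] [Algebra K ℂ] [IsScalarTower k K ℂ] [Algebra k ℝ] [IsScalarTower k ℝ ℂ]
  {T : Type} [AddCommGroup T] [Module k T] [FiniteDimensional k T]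
  {H : Type} [AddCommGroup H] [Module k H] [FiniteDimensional k H] [Nontrivial H]
  {ι ν : Type} [Fintype ι] [DecidableEq ι] [Fintype ν] [DecidableEq ν]
  (ξ : Basis ι ℂ (T →ₗ[k] ℂ)) (θ : Basis ν ℂ (H →ₗ[k] ℂ))
  (b : T →ₗ[k] T →ₗ[k] k) (γ : T →ₗ[k] Module.End k H)
  {τ : ℂ} (hτ : τ ≠ 0) (ω : H →ₗ[k] H →ₗ[k] k)

include hτ in
theorem spin_total
    (hsym : ∀ u v, b u v = b v u) (hnd : ∀ u, (∀ v, b u v = 0) → u = 0)
    (hn : 6 ≤ finrank k T) (hsig : WittTwo (bx ℝ b))
    (hcl : ∀ u v, γ u * γ v + γ v * γ u = (2 * b u v) • (1 : Module.End k H))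
    (hγ : IsDRBAction K (ξ : ι → (T →ₗ[k] ℂ)) (θ : ν → (H →ₗ[k] ℂ)) γ)
    (hωnd : ∀ u, (∀ v, ω u v = 0) → u = 0)
    (hω : IsDeRhamBettiBilinear K (θ : ν → (H →ₗ[k] ℂ)) τ ω)
    (hss : DeRhamBettiSemisimple K (θ : ν → (H →ₗ[k] ℂ)))
    (hend : ∀ P : Module.End k H, IsDeRhamBettiEnd K (θ : ν → (H →ₗ[k] ℂ)) P ↔
      ∀ u v, P * (γ u * γ v) = (γ u * γ v) * P)
    (m : ℕ) (φ : MultilinearMap k (fun _ : Fin m × Fin 2 => H) k)
    (hφ : IsDeRhamBettiForm K (θ : ν → (H →ₗ[k] ℂ)) τ m φ) :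
    (∀ u v, Kills (γ u * γ v - γ v * γ u) φ) ∧
    ∀ σ σ' : ℂ ⊗[k] T, bx ℂ b σ σ' ≠ 0 → IsHodgeCl γ σ σ' φ := by
  have h1 : ∀ u v, Kills (γ u * γ v - γ v * γ u) φ := by
    intro u v
    refine spin_mem (K := K) ξ θ b γ hsym hnd hcl hγ hss (fun P hP => (hend P).1 hP) hτ ω hωnd hω
      W327.DK.T_IRR (Pool.Agent.W32.DK.T_IRRL W327.DK.T_IRR) Pool.Agent.W613.DK.T_DESC
      (Pool.Agent.W440.DK.T_KILL Pool.Agent.W655.DK.T_SUM) s_real Pool.Agent.W32.DH.T_SPN hn hsig
      (fun P hP => (hend P).2 fun u v => ?_) u v m φ hφ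
    rw [← mul_assoc, hP, mul_assoc, hP, mul_assoc]
  refine ⟨h1, fun σ σ' hσ => ?_⟩
  refine ⟨bcm (Ω := ℂ) (Module.finBasis k H) φ, fun v => bcm_one _ φ v, ?_⟩
  have h2 := Pool.Agent.W108.DH.T_KXT k ℂ T H γ _ φ (bcm (Ω := ℂ) (Module.finBasis k H) φ)
    (fun v => bcm_one _ φ v) h1 σ σ'
  exact Pool.Agent.W688.DH.T_HHG ℂ (ℂ ⊗[k] T) (ℂ ⊗[k] H) (bx ℂ b) (gx ℂ γ) _ _ σ σ'
    (gx_clifford ℂ γ b hcl) h2 hσ

end

end Pool.Agent.W516.K3
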